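import Mathlib

/-! Cycle cut points: the finite model of one step, with a free default cell. -/

namespace Pool.Agent.P.MP_92d394_lc.Y

noncomputable section

/-- Functions of the state `(p, α, β)`. -/
abbrev B3 : Type := Bool → Bool → Bool → ℝ

def sg (b : Bool) : ℝ := if b then -1 else 1

def ib (b : Bool) : ℝ := if b then 1 else 0

/-- Expectation for the masses `m`. -/
def E (m G : B3) : ℝ :=
  m false false false * G false false false + m false false true * G false false true +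
    m false true false * G false true false + m false true true * G false true true +
    m true false false * G true false false + m true false true * G true false true +
    m true true false * G true true false + m true true true * G true true true

/-- A safe pattern of flips. -/
def Sf (m q : B3) : Prop := ∃ s t : ℝ, 0 ≤ s ∧ 0 ≤ t ∧
  E m (fun p a b => |1 - 2 * q p a b - s - t * sg p|) ≤ 5 / 7 * (1 - s - t)

/-- The probability that the flips meet `U` an odd number of times. -/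
def qU (f h z d : B3) (u v w : Bool) : B3 := fun p a b =>
  ib u * f p a b + ib v * h p a b + ib w * z p a b + ib (xor u v) * d p a b

/-- Achievable gains and usages. -/
def Ach (m : B3) (nL nR k₁ k₂ k₃ : ℝ) : Prop := ∃ f h z d : B3,
  (∀ p a b, 0 ≤ f p a b ∧ 0 ≤ h p a b ∧ 0 ≤ z p a b ∧ 0 ≤ d p a b ∧
    f p a b + h p a b + z p a b + d p a b ≤ 1) ∧ (∀ a b, d true a b = 0) ∧
  nL ≤ E m (fun p a b => (f p a b + z p a b + d p a b) * sg a) ∧
  nR ≤ E m (fun p a b => (h p a b + z p a b + d p a b) * sg b) ∧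
  E m (fun p a b => f p a b + d p a b) ≤ k₁ ∧ E m (fun p a b => h p a b + d p a b) ≤ k₂ ∧
  E m z ≤ k₃ ∧ ∀ u v w, Sf m (qU f h z d u v w)

/-- Probability masses. -/
structure Pm (m : B3) : Prop where
  nn : ∀ p a b, 0 ≤ m p a b
  one : E m (fun _ _ _ => 1) = 1

def bk (m : B3) (a b : Bool) : ℝ := m false a b + m true a b

variable {m : B3}

theorem E_mono (hm : Pm m) {G G' : B3} (h : ∀ p a b, G p a b ≤ G' p a b) : E m G ≤ E m G' := by
  unfold E
  have := hm.nn
  gcongr <;> first | exact this _ _ _ | exact h _ _ _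

theorem E_mix (θ : ℝ) (G G' : B3) :
    E m (fun p a b => θ * G p a b + (1 - θ) * G' p a b) = θ * E m G + (1 - θ) * E m G' := by
  unfold E; ring

theorem mul_abs {a x : ℝ} (h : 0 ≤ a) : a * |x| = |a * x| := by rw [abs_mul, abs_of_nonneg h]

theorem Sf.mix (hm : Pm m) {θ : ℝ} (h0 : 0 ≤ θ) (h1 : θ ≤ 1) {q q' : B3} (h : Sf m q)
    (h' : Sf m q') : Sf m fun p a b => θ * q p a b + (1 - θ) * q' p a b := by
  obtain ⟨s, t, hs, ht, e⟩ := h
  obtain ⟨s', t', hs', ht', e'⟩ := h'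
  have h2 : 0 ≤ 1 - θ := by linarith
  refine ⟨θ * s + (1 - θ) * s', θ * t + (1 - θ) * t', by positivity, by positivity, ?_⟩
  refine (E_mono hm (G' := fun p a b => θ * |1 - 2 * q p a b - s - t * sg p| +
    (1 - θ) * |1 - 2 * q' p a b - s' - t' * sg p|) fun p a b => ?_).trans ?_
  · rw [mul_abs h0, mul_abs h2]
    refine le_trans (le_of_eq ?_) (abs_add_le _ _)
    congr 1; ring
  · rw [E_mix]
    nlinarith [mul_le_mul_of_nonneg_left e h0, mul_le_mul_of_nonneg_left e' h2]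

theorem Ach.mix (hm : Pm m) {θ : ℝ} (h0 : 0 ≤ θ) (h1 : θ ≤ 1)
    {a₁ a₂ a₃ a₄ a₅ b₁ b₂ b₃ b₄ b₅ c₁ c₂ c₃ c₄ c₅ : ℝ} (h : Ach m a₁ a₂ a₃ a₄ a₅)
    (h' : Ach m b₁ b₂ b₃ b₄ b₅) (e₁ : c₁ ≤ θ * a₁ + (1 - θ) * b₁)
    (e₂ : c₂ ≤ θ * a₂ + (1 - θ) * b₂) (e₃ : θ * a₃ + (1 - θ) * b₃ ≤ c₃)
    (e₄ : θ * a₄ + (1 - θ) * b₄ ≤ c₄) (e₅ : θ * a₅ + (1 - θ) * b₅ ≤ c₅) :
    Ach m c₁ c₂ c₃ c₄ c₅ := by
  obtain ⟨f, h, z, d, p1, p2, p3, p4, p5, p6, p7, p8⟩ := h
  obtain ⟨f', h', z', d', q1, q2, q3, q4, q5, q6, q7, q8⟩ := h'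
  have h2 : 0 ≤ 1 - θ := by linarith
  have k : ∀ {x y x' y' : ℝ}, x ≤ y → x' ≤ y' → θ * x + (1 - θ) * x' ≤ θ * y + (1 - θ) * y' :=
    fun a b => add_le_add (mul_le_mul_of_nonneg_left a h0) (mul_le_mul_of_nonneg_left b h2)
  refine ⟨fun p a b => θ * f p a b + (1 - θ) * f' p a b,
    fun p a b => θ * h p a b + (1 - θ) * h' p a b, fun p a b => θ * z p a b + (1 - θ) * z' p a b,
    fun p a b => θ * d p a b + (1 - θ) * d' p a b, fun p a b => ?_, fun a b => ?_,
    e₁.trans ((k p3 q3).trans_eq ?_), e₂.trans ((k p4 q4).trans_eq ?_),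
    le_trans (Eq.trans_le ?_ (k p5 q5)) e₃, le_trans (Eq.trans_le ?_ (k p6 q6)) e₄,
    le_trans (Eq.trans_le ?_ (k p7 q7)) e₅, fun u v w => ?_⟩
  · obtain ⟨x1, x2, x3, x4, x5⟩ := p1 p a b
    obtain ⟨y1, y2, y3, y4, y5⟩ := q1 p a b
    refine ⟨by positivity, by positivity, by positivity, by positivity, ?_⟩
    linarith [k x5 y5]
  · simp [p2, q2]
  iterate 5 unfold E; ring
  convert (p8 u v w).mix hm h0 h1 (q8 u v w) using 1
  funext p a b
  unfold qU; ring

theorem Ach.mono (hm : Pm m) {a₁ a₂ a₃ a₄ a₅ c₁ c₂ c₃ c₄ c₅ : ℝ} (h : Ach m a₁ a₂ a₃ a₄ a₅)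
    (e₁ : c₁ ≤ a₁) (e₂ : c₂ ≤ a₂) (e₃ : a₃ ≤ c₃) (e₄ : a₄ ≤ c₄) (e₅ : a₅ ≤ c₅) :
    Ach m c₁ c₂ c₃ c₄ c₅ :=
  h.mix hm zero_le_one le_rfl h (by linarith) (by linarith) (by linarith) (by linarith)
    (by linarith)

/-- Exchange of the two children. -/
def sw (m : B3) : B3 := fun p a b => m p b a

theorem E_sw (G : B3) : E (sw m) (sw G) = E m G := by unfold E sw; ring

theorem Pm.sw (hm : Pm m) : Pm (sw m) :=
  ⟨fun _ _ _ => hm.nn _ _ _, (E_sw _).trans hm.one⟩

theorem Ach.sw {a₁ a₂ a₃ a₄ a₅ : ℝ} (h : Ach (sw m) a₁ a₂ a₃ a₄ a₅) : Ach m a₂ a₁ a₄ a₃ a₅ := by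
  obtain ⟨f, h, z, d, p1, p2, p3, p4, p5, p6, p7, p8⟩ := h
  refine ⟨Y.sw h, Y.sw f, Y.sw z, Y.sw d, fun p a b => ?_, fun a b => p2 b a,
    p4.trans_eq (E_sw _), p3.trans_eq (E_sw _), (E_sw _).symm.trans_le p6,
    (E_sw _).symm.trans_le p5, (E_sw _).symm.trans_le p7, fun u v w => ?_⟩
  · obtain ⟨x1, x2, x3, x4, x5⟩ := p1 p b a
    exact ⟨x2, x1, x3, x4, by unfold Y.sw; linarith⟩
  · obtain ⟨s, t, hs, ht, e⟩ := p8 v u w
    refine ⟨s, t, hs, ht, le_trans (le_of_eq ?_) e⟩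
    rw [← E_sw]
    congr 1
    funext p a b
    simp only [Y.sw, qU, Bool.xor_comm u v]
    congr 1; ring

theorem Pm.bk_nn (hm : Pm m) (a b : Bool) : 0 ≤ bk m a b := add_nonneg (hm.nn _ _ _) (hm.nn _ _ _)

theorem Pm.bk_one (hm : Pm m) :
    bk m false false + bk m false true + bk m true false + bk m true true = 1 := by
  have := hm.one
  unfold E at this
  unfold bk; linarith

/-- The safety test for amounts `x, y, u` on the blocks `W, L, R`. -/
def SM (W L R V x y u : ℝ) : Prop := ∃ M : ℝ, 0 ≤ M ∧ M ≤ 1 / 2 ∧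
  |M * W - x| + |M * L - y| + |M * R - u| + M * V ≤ 5 / 7 * M

/-- A pattern that depends on the block only. -/
def bp (x y u : ℝ) : B3 := fun _ a b => if a then (if b then 0 else u) else if b then y else x

theorem Sf_bp (hm : Pm m) {x y u : ℝ}
    (h : SM (bk m false false) (bk m false true) (bk m true false) (bk m true true)
      (bk m false false * x) (bk m false true * y) (bk m true false * u)) : Sf m (bp x y u) := by
  obtain ⟨M, h0, h1, e⟩ := h
  refine ⟨1 - 2 * M, 0, by linarith, le_rfl, ?_⟩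
  have k : ∀ W x : ℝ, 0 ≤ W → W * |1 - 2 * x - (1 - 2 * M) - 0| = 2 * |M * W - W * x| :=
    fun W x hW => by
      rw [← abs_of_nonneg hW, ← abs_mul, abs_of_nonneg hW, ← abs_two, ← abs_mul, abs_two]
      congr 1; ring
  have k1 := k _ x (hm.bk_nn false false)
  have k2 := k _ y (hm.bk_nn false true)
  have k3 := k _ u (hm.bk_nn true false)
  have k4 : |1 - 2 * 0 - (1 - 2 * M) - 0| = 2 * M := by
    rw [abs_of_nonneg (by linarith)]; ring
  simp only [E, bp, zero_mul, if_true, if_false, Bool.false_eq_true, k4]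
  unfold bk at *
  linarith

theorem Sf_zero : Sf m fun _ _ _ => 0 := ⟨1, 0, zero_le_one, le_rfl, by simp [E]⟩

theorem mul_div_eq {M x : ℝ} (h0 : 0 ≤ x) (h1 : x ≤ M) : M * (x / M) = x := by
  rcases eq_or_ne M 0 with rfl | h
  · simp [le_antisymm h1 h0]
  · field_simp

/-- Kernels with the outcomes `z` and `h` only, given by amounts on the blocks. -/
theorem ach_zh (hm : Pm m) {W L R V w l r x u : ℝ} (eW : W = bk m false false)
    (eL : L = bk m false true) (eR : R = bk m true false) (eV : V = bk m true true)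
    (hw : 0 ≤ w) (hl : 0 ≤ l) (hr : 0 ≤ r) (hx : 0 ≤ x) (hu : 0 ≤ u) (h1 : w + x ≤ W)
    (h2 : l ≤ L) (h3 : r + u ≤ R) (s1 : SM W L R V w l r) (s2 : SM W L R V x 0 u)
    (s3 : SM W L R V (w + x) l (r + u)) :
    Ach m (w + l - r) (w + r - l + x + u) 0 (x + u) (w + l + r) := by
  have a1 := mul_div_eq hw (by linarith : w ≤ W)
  have a2 := mul_div_eq hl h2
  have a3 := mul_div_eq hr (by linarith : r ≤ R)
  have a4 := mul_div_eq hx (by linarith : x ≤ W)
  have a5 := mul_div_eq hu (by linarith : u ≤ R)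
  have hW : 0 ≤ W := by linarith
  have hL : 0 ≤ L := by linarith
  have hR : 0 ≤ R := by linarith
  have b1 : x / W + w / W ≤ 1 := by
    rw [← add_div]; exact div_le_one_of_le₀ (by linarith) hW
  have b2 : l / L ≤ 1 := div_le_one_of_le₀ h2 hL
  have b3 : u / R + r / R ≤ 1 := by
    rw [← add_div]; exact div_le_one_of_le₀ (by linarith) hR
  have c1 : 0 ≤ w / W := by positivity
  have c2 : 0 ≤ l / L := by positivity
  have c3 : 0 ≤ r / R := by positivity
  have c4 : 0 ≤ x / W := by positivity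
  have c5 : 0 ≤ u / R := by positivity
  generalize w / W = q1 at *
  generalize l / L = q2 at *
  generalize r / R = q3 at *
  generalize x / W = q4 at *
  generalize u / R = q5 at *
  subst eW eL eR eV
  have t1 : Sf m (bp q1 q2 q3) := Sf_bp hm (by rwa [a1, a2, a3])
  have t2 : Sf m (bp q4 0 q5) := Sf_bp hm (by rwa [a4, a5, mul_zero])
  have t3 : Sf m (bp (q1 + q4) q2 (q3 + q5)) :=
    Sf_bp hm (by rwa [mul_add, mul_add, a1, a2, a3, a4, a5])
  refine ⟨fun _ _ _ => 0, bp q4 0 q5, bp q1 q2 q3, fun _ _ _ => 0, fun p a b => ?_,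
    fun _ _ => rfl, ?_, ?_, ?_, ?_, ?_, fun u v w => ?_⟩
  · cases a <;> cases b <;> simp [bp, *]
  iterate 5
    simp only [E, bp, sg, if_true, if_false, Bool.false_eq_true]
    unfold bk at *
    linarith
  cases v <;> cases w
  · convert Sf_zero using 1
    funext p a b; simp [qU, ib]
  · convert t1 using 1
    funext p a b; simp [qU, ib]
  · convert t2 using 1
    funext p a b; simp [qU, ib]
  · convert t3 using 1
    funext p a b; cases a <;> cases b <;> simp [qU, ib, bp, add_comm]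

variable {W L R V x y u : ℝ}

theorem SM_zero : SM W L R V 0 0 0 := ⟨0, le_rfl, by norm_num, by simp⟩

theorem SM_half (h : W + L + R + V = 1)
    (e : 1 / 7 ≤ min x (W - x) + min y (L - y) + min u (R - u)) : SM W L R V x y u := by
  have k : ∀ W x : ℝ, |1 / 2 * W - x| ≤ W / 2 - min x (W - x) := fun W x =>
    abs_le.2 ⟨by linarith [min_le_right x (W - x)], by linarith [min_le_left x (W - x)]⟩
  exact ⟨1 / 2, by norm_num, le_rfl, by linarith [k W x, k L y, k R u]⟩

/-- A uniform pattern on an event that is not too small. -/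
theorem SM_unif (h : W + L + R + V = 1) (hW : 0 ≤ W) (hL : 0 ≤ L) (hR : 0 ≤ R) {q : ℝ}
    (i j k : Bool) (hq : 0 ≤ q) (e1 : 2 / 7 ≤ ib i * W + ib j * L + ib k * R)
    (e2 : q * (ib i * W + ib j * L + ib k * R) ≤ ib i * W + ib j * L + ib k * R - 1 / 7) :
    SM W L R V (ib i * W * q) (ib j * L * q) (ib k * R * q) := by
  have k1 : ∀ (M W : ℝ) (i : Bool), 0 ≤ M → 0 ≤ W →
      |M * W - ib i * W * q| = |M - q| * (ib i * W) + M * (W - ib i * W) := fun M W i hM hW => by
    cases i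
    · simp [ib, abs_of_nonneg (mul_nonneg hM hW)]
    · simp only [ib, if_true, one_mul, sub_self, mul_zero, add_zero]
      rw [← abs_of_nonneg hW, ← abs_mul, abs_of_nonneg hW]
      congr 1; ring
  rcases le_total q (1 / 2) with c | c
  · refine ⟨q, hq, c, ?_⟩
    rw [k1 _ _ _ hq hW, k1 _ _ _ hq hL, k1 _ _ _ hq hR, sub_self, abs_zero,
      show V = 1 - W - L - R by linarith]
    nlinarith [mul_le_mul_of_nonneg_left e1 hq]
  · refine ⟨1 / 2, by norm_num, le_rfl, ?_⟩
    rw [k1 _ _ _ (by norm_num) hW, k1 _ _ _ (by norm_num) hL, k1 _ _ _ (by norm_num) hR,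
      abs_of_nonpos (by linarith)]
    linarith

theorem SM_W (h : W + L + R + V = 1) (hL : 0 ≤ L) (hR : 0 ≤ R) (h1 : 2 / 7 ≤ W) (h2 : 0 ≤ x)
    (h3 : x ≤ W - 1 / 7) : SM W L R V x 0 0 := by
  have e := mul_div_eq h2 (by linarith : x ≤ W)
  have := SM_unif h (by linarith) hL hR true false false (q := x / W)
    (div_nonneg h2 (by linarith)) (by simpa [ib] using h1) (by simp only [ib]; norm_num; linarith)
  simpa [ib, e] using this

theorem SM_R (h : W + L + R + V = 1) (hW : 0 ≤ W) (hL : 0 ≤ L) (h1 : 2 / 7 ≤ R) (h2 : 0 ≤ x)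
    (h3 : x ≤ R - 1 / 7) : SM W L R V 0 0 x := by
  have e := mul_div_eq h2 (by linarith : x ≤ R)
  have := SM_unif h hW hL (by linarith) false false true (q := x / R)
    (div_nonneg h2 (by linarith)) (by simpa [ib] using h1) (by simp only [ib]; norm_num; linarith)
  simpa [ib, e] using this

end

end Pool.Agent.P.MP_92d394_lc.Y
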