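import Pool.Agent.P.MP_92d394_lc.Df

/-! Cycle cut points. -/

namespace Pool.Agent.P.MP_92d394_lc

open Finset

/-- There are a node `r` and a family of tight sets that contains the complement of `r` and in
which every member with at least two nodes is the union of two other members. -/
def IsCycleCut {V : Type} [Fintype V] [DecidableEq V] (y : V → V → ℝ) : Prop :=
  ∃ (r : V) (Λ : Set (Finset V)), ({r} : Finset V)ᶜ ∈ Λ ∧ ∀ S ∈ Λ,
    ∑ u ∈ S, ∑ v ∈ Sᶜ, y u v = 2 ∧
      (2 ≤ S.card → ∃ A ∈ Λ, ∃ B ∈ Λ, A ≠ S ∧ B ≠ S ∧ A ∪ B = S)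

end Pool.Agent.P.MP_92d394_lc
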