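import Pool.Agent.P.MP_92d394_lc.Y.Rec
import Pool.Agent.P.MP_92d394_lc.Y.Df
import Pool.Agent.P.MP_92d394_lc.Spl

/-! Cycle cut points: the bound 10/7. -/

set_option linter.unusedSectionVars false

namespace Pool.Agent.P.MP_92d394_lc.Y

open Finset

noncomputable section

variable {V : Type} [Fintype V] [DecidableEq V] {c y : V → V → ℝ} {S : Finset V}

/-- Sets with a binary tree of tight sets. -/
inductive Spl (y : V → V → ℝ) : Finset V → Prop
  | one (v : V) : Spl y {v}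
  | two (L R : Finset V) : Disjoint L R → Spl y L → Spl y R → dot (cutm (L ∪ R)) y = 2 →
      Spl y (L ∪ R)

theorem Spl.tight (hy : y ∈ SubP V) (h : Spl y S) : dot (cutm S) y = 2 := by
  cases h with
  | one v => rw [dot_single hy.1 hy.2.1, hy.2.2.2.1]
  | two L R _ _ _ e => exact e

theorem Spl.ne (h : Spl y S) : S.Nonempty := by
  induction h with
  | one v => exact singleton_nonempty v
  | two L R _ _ _ _ a _ => exact a.mono subset_union_left

theorem posi (hy : y ∈ SubP V) (A T : Finset V) :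
    dot (cutm (T \ A)) y + dot (cutm (A \ T)) y ≤ dot (cutm T) y + dot (cutm A) y := by
  simp only [dot, ← add_div, ← sum_add_distrib, ← add_mul]
  refine div_le_div_of_nonneg_right (sum_le_sum fun u _ => sum_le_sum fun v _ =>
    mul_le_mul_of_nonneg_right ?_ (hy.2.2.1 u v).1) zero_le_two
  by_cases a : u ∈ A <;> by_cases b : v ∈ A <;> by_cases d : u ∈ T <;> by_cases e : v ∈ T <;>
    simp [cutm, a, b, d, e]

theorem Spl.sdiff (hy : y ∈ SubP V) {A : Finset V} (hA : dot (cutm A) y = 2) {a : V} (ha : a ∈ A)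
    (h : Spl y S) (hS : a ∉ S) : S \ A = ∅ ∨ Spl y (S \ A) := by
  induction h with
  | one v =>
    by_cases k : v ∈ A
    · exact Or.inl (by simpa using k)
    · exact Or.inr (by rw [sdiff_eq_self_of_disjoint (by simpa using k)]; exact Spl.one v)
  | two L R d _ _ e i1 i2 =>
    rw [union_sdiff_distrib]
    rcases i1 fun k => hS (mem_union_left _ k) with i1 | i1 <;>
      rcases i2 fun k => hS (mem_union_right _ k) with i2 | i2
    · exact Or.inl (by rw [i1, i2, union_empty])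
    · exact Or.inr (by rwa [i1, empty_union])
    · exact Or.inr (by rwa [i2, union_empty])
    refine Or.inr (Spl.two _ _ (d.mono sdiff_subset sdiff_subset) i1 i2 ?_)
    obtain ⟨b, hb⟩ := i1.ne
    rw [mem_sdiff] at hb
    rw [← union_sdiff_distrib]
    have e1 := posi hy A (L ∪ R)
    have e2 := cut_two hy (S := (L ∪ R) \ A) ⟨b, by simp [hb]⟩ ⟨a, by simp [ha]⟩
    have e3 := cut_two hy (S := A \ (L ∪ R)) ⟨a, mem_sdiff.2 ⟨ha, hS⟩⟩ ⟨b, by simp [hb]⟩
    linarith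

theorem spl_of_family (hy : y ∈ SubP V) {Λ : Set (Finset V)} (h : ∀ S ∈ Λ,
    ∑ u ∈ S, ∑ v ∈ Sᶜ, y u v = 2 ∧ (2 ≤ S.card → ∃ A ∈ Λ, ∃ B ∈ Λ, A ≠ S ∧ B ≠ S ∧ A ∪ B = S))
    (S : Finset V) (hS : S ∈ Λ) : Spl y S := by
  induction S using Finset.strongInduction with
  | H S ih =>
    obtain ⟨t, k⟩ := h S hS
    rcases lt_trichotomy S.card 1 with c | c | c
    · rw [Nat.lt_one_iff, card_eq_zero] at c
      simp [c] at t
    · obtain ⟨v, rfl⟩ := card_eq_one.1 c
      exact Spl.one v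
    obtain ⟨A, hA, B, hB, a1, b1, rfl⟩ := k c
    have a2 := ih A (ssubset_of_ne_of_subset a1 subset_union_left) hA
    have b2 := ih B (ssubset_of_ne_of_subset b1 subset_union_right) hB
    obtain ⟨a, a3, a4⟩ := not_subset.1 fun z : A ⊆ B => b1 (union_eq_right.2 z).symm
    have b3 := (b2.sdiff hy (a2.tight hy) a3 a4).resolve_left fun z =>
      a1 (union_eq_left.2 (sdiff_eq_empty_iff_subset.1 z)).symm
    rw [← union_sdiff_self_eq_union]
    exact Spl.two _ _ disjoint_sdiff a2 b3 (by rwa [union_sdiff_self_eq_union, dot_cutm hy.1])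

theorem val_one {H : V → V → ℕ} {v : V} (h : Even (∑ u, H v u)) : Val c {v} H 0 :=
  ⟨0, fun _ _ => rfl, by simp, by simpa using h, fun T hT h1 h2 =>
    absurd ((subset_singleton_iff.1 hT).resolve_left h1.ne_empty) h2, by simp [cs]⟩

theorem Spl.good (hy : y ∈ SubP V) (hc : IsMetric c) (h : Spl y S) :
    ((∃ v, S = {v}) ∨ ∃ D ⊆ S ×ˢ Sᶜ, ys y D = 1) ∧
      ((∃ D ⊆ S ×ˢ Sᶜ, ys y D = 1) → ∃ D ⊆ S ×ˢ Sᶜ, ys y D = 1 ∧ Good c y S D) := by
  have t : ∀ {S}, Spl y S → ys y (S ×ˢ Sᶜ) = 2 := fun h => by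
    rw [← h.tight hy, dot_cutm hy.1, ys, sum_product]
  induction h with
  | one v =>
    refine ⟨Or.inl ⟨v, rfl⟩, fun ⟨D, a, b⟩ => ⟨D, a, b, fun Ω _ μ H h _ =>
      ⟨0, fun ω => val_one ?_, by simp [ys, hy.2.1]⟩⟩⟩
    have e := h.ev ω
    rw [hs, sum_product, sum_singleton] at e
    rwa [← sum_add_sum_compl {v}, sum_singleton, h.ze ω v (by simp) v (by simp), zero_add]
  | two L R d a b e i1 i2 =>
    obtain ⟨m1, m2, m3⟩ := masses hy.1 d (t a) (t b) (t (Spl.two L R d a b e))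
    obtain ⟨D, a1, a2, a3⟩ := i1.2 ⟨L ×ˢ R, product_subset_product_right
      fun v hv => mem_compl.2 (disjoint_right.1 d hv), m1⟩
    obtain ⟨D', b1, b2, b3⟩ := i2.2 ⟨R ×ˢ L, product_subset_product_right
      fun v hv => mem_compl.2 (disjoint_left.1 d hv), by rwa [ys_swap hy.1]⟩
    have s : L ×ˢ (L ∪ R)ᶜ ⊆ (L ∪ R) ×ˢ (L ∪ R)ᶜ := product_subset_product_left subset_union_left
    exact ⟨Or.inr ⟨_, s, m2⟩, fun _ => ⟨_, s, m2, step hy.1 (fun u v => (hy.2.2.1 u v).1) hc.1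
      hc.2.2.1 d m1 m2 m3 a1 b1 a2 b2 a3 b3⟩⟩

theorem Val.tour (hc : IsMetric c) (hn : 3 ≤ Fintype.card V) {x : ℝ} (h : Val c univ 0 x) :
    ∃ z, (z ∈ SubP V ∧ ∀ u v, ∃ k : ℤ, z u v = k) ∧ dot c z ≤ x / 2 := by
  obtain ⟨G, a1, a2, a3, a4, a5⟩ := h
  have dg : ∀ u, G u u = 0 := fun u => by_contra fun k => (a2 u u k).2.2 rfl
  have sy : ∀ u v, (G u v : ℝ) = G v u := fun u v => by rw [a1]
  have ev : ∀ T : Finset V, Even (∑ u ∈ T, ∑ v ∈ T, G u v) := fun T => by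
    induction T using Finset.induction_on with
    | empty => simp
    | insert a T ha ih =>
      simp only [sum_insert ha, sum_add_distrib, dg, zero_add, a1 _ a]
      rw [← add_assoc]
      exact (Even.add_self _).add ih
  obtain ⟨z, z1, z2⟩ := Eul.tour hc hn (z := fun u v => G u v) ⟨sy, fun u => by simp [dg],
    fun u v => ⟨_, rfl⟩, fun T => by
      have e : Even (∑ u ∈ T, ∑ v, G u v) := even_sum _ fun u _ => by simpa using a3 u
      simp only [← sum_add_sum_compl T, sum_add_distrib] at e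
      obtain ⟨k, hk⟩ := (Nat.even_add.1 e).1 (ev T)
      refine ⟨k, ?_⟩
      rw [dot_cutm sy, two_mul]
      exact_mod_cast hk,
    fun T p q => by
      obtain ⟨u, hu, v, hv, k⟩ := a4 T (subset_univ T) p (by rintro rfl; simp at q)
      rw [dot_cutm sy]
      exact sum_pos' (fun u _ => by positivity) ⟨u, hu, sum_pos' (fun u _ => by positivity)
        ⟨v, mem_compl.2 hv, by positivity⟩⟩⟩
  exact ⟨z, z1, z2.trans (div_le_div_of_nonneg_right a5 zero_le_two)⟩

theorem root (hy : y ∈ SubP V) (hc : IsMetric c) (r : V) {D : Finset (V × V)}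
    (hD : D ⊆ {r}ᶜ ×ˢ {r}ᶜᶜ) (e1 : ys y D = 1) (g : Good c y {r}ᶜ D) :
    Val c univ 0 (2 * (10 / 7 * dot c y)) := by
  obtain ⟨X, hX⟩ : ∃ X : Finset V, X = {r}ᶜ := ⟨_, rfl⟩
  have hX' : Xᶜ = {r} := by rw [hX, compl_compl]
  rw [← hX] at hD g
  have y0 := fun u v => (hy.2.2.1 u v).1
  have t : ys y (X ×ˢ Xᶜ) = 2 := by
    rw [ys_swap hy.1, ys, sum_product, hX', hX, ← dot_cutm hy.1, dot_single hy.1 hy.2.1,
      hy.2.2.2.1]
  obtain ⟨D', hD', dd, un⟩ : ∃ D' ⊆ X ×ˢ Xᶜ, Disjoint D D' ∧ D ∪ D' = X ×ˢ Xᶜ :=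
    ⟨_, sdiff_subset, disjoint_sdiff, union_sdiff_of_subset hD⟩
  have sp : ∀ g : V → V → ℝ, ys g D + ys g D' = ys g (X ×ˢ Xᶜ) := fun g => by
    rw [← un, ys, ys, ys, sum_union dd]
  have e2 : ys y D' = 1 := by linarith [sp y]
  have z : ∀ (C : Finset (V × V)) (g : V × V → ℝ), ∑ e : ↥C, y e.1.1 e.1.2 * g e =
      ∑ e ∈ C, y e.1 e.2 * g e := fun C g => sum_coe_sort C fun e => y e.1 e.2 * g e
  obtain ⟨μ, hμ⟩ : ∃ μ : Bool × ↥D × ↥D' → ℝ, μ = fun s =>
    (if s.1 then 4 / 7 else 3 / 7) * (y s.2.1.1.1 s.2.1.1.2 * y s.2.2.1.1 s.2.2.1.2) := ⟨_, rfl⟩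
  have ex : ∀ (g : V × V → ℝ) (x : ℝ),
      ∑ s, μ s * (if s.1 then g s.2.1 + g s.2.2 else x) =
        4 / 7 * ∑ e ∈ X ×ˢ Xᶜ, y e.1 e.2 * g e + 3 / 7 * x := fun g x => by
    have a1 := z D fun _ => 1
    have a2 := z D' fun _ => 1
    simp only [mul_one] at a1 a2
    replace a1 := a1.trans e1
    replace a2 := a2.trans e2
    have a3 : ∀ (e : ↥D) (e' : ↥D'), 4 / 7 * (y e.1.1 e.1.2 * y e'.1.1 e'.1.2) * (g e + g e') =
        4 / 7 * (y e.1.1 e.1.2 * g e) * y e'.1.1 e'.1.2 +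
          4 / 7 * y e.1.1 e.1.2 * (y e'.1.1 e'.1.2 * g e') := fun e e' => by ring
    rw [← un, sum_union dd, ← z, ← z]
    simp only [hμ, Fintype.sum_prod_type, Fintype.sum_bool, if_true, if_false, Bool.false_eq_true,
      a3, sum_add_distrib, ← mul_sum, ← sum_mul, a1, a2]
    ring
  obtain ⟨H, hH⟩ : ∃ H : Bool × ↥D × ↥D' → V → V → ℕ, H = fun s =>
    if s.1 then en s.2.1 + en s.2.2 else 0 := ⟨_, rfl⟩
  have mm : ∀ {e : V × V}, e ∈ X ×ˢ Xᶜ → e.1 ∈ X ∧ e.2 ∉ X := fun h => by simpa using h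
  have sw : ∀ {e : V × V}, e ∈ X ×ˢ Xᶜ → e.swap ∉ X ×ˢ Xᶜ := fun h k => (mm h).2 (mm k).1
  have μ0 : ∀ s, 0 ≤ μ s := fun s => by
    rw [hμ]
    exact mul_nonneg (by split_ifs <;> norm_num) (mul_nonneg (y0 _ _) (y0 _ _))
  have cst : ∀ a x : ℝ, ∑ s, μ s * (if s.1 then a else x) = 4 / 7 * a + 3 / 7 * x := fun a x => by
    have := ex (fun _ => a / 2) x
    rw [← sum_mul, show ∑ e ∈ X ×ˢ Xᶜ, y e.1 e.2 = 2 from t] at this
    simp only [add_halves] at this
    linarith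
  have su : ∀ s u v, H s u v ≠ 0 → ∃ e ∈ X ×ˢ Xᶜ, e = (u, v) ∨ e = (v, u) := fun s u v k => by
    by_cases a : en s.2.1.1 u v = 0
    · exact ⟨_, hD' s.2.2.2, en_ne fun b => k (by rw [hH]; dsimp only; split_ifs <;> simp [a, b])⟩
    · exact ⟨_, hD s.2.1.2, en_ne a⟩
  have sy : ∀ s u v, H s u v = H s v u := fun s u v => by
    rw [hH]; dsimp only; split_ifs <;> simp [en_symm _ u v]
  have ev : ∀ s, Even (hs (H s) (X ×ˢ Xᶜ)) := fun s => by
    rw [hH]; dsimp only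
    split_ifs
    · rw [hs_add, hs_en, hs_en, if_pos (hD s.2.1.2), if_pos (hD' s.2.2.2),
        if_neg (sw (hD s.2.1.2)), if_neg (sw (hD' s.2.2.2))]
      decide
    · simp [hs]
  have μ1 : ∑ s, μ s = 1 := by
    have := cst 1 1
    simp only [ite_self, mul_one] at this
    linarith
  obtain ⟨x, v, b⟩ := g _ μ H ⟨μ0, μ1, sy, fun s u hu v hv => by_contra fun k => by
      obtain ⟨e, he, rfl | rfl⟩ := su s u v k
      exacts [(mm he).2 hv, (mm he).2 hu], ev, fun f hf => by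
      have a1 := ex (fun e => en e f.1 f.2) 0
      have a2 : ∑ e ∈ X ×ˢ Xᶜ, y e.1 e.2 * en e f.1 f.2 = y f.1 f.2 := by
        rw [sum_eq_single f (fun e he k => by
          simp [en, k, show e ≠ (f.2, f.1) from fun q => sw hf (by rw [q] at he; exact he)]) fun k => absurd hf k]
        simp [en, show f ≠ (f.2, f.1) from fun q => sw hf (by
          rw [show f.swap = f from q.symm]; exact hf)]
      rw [a2] at a1
      refine le_trans (le_of_eq (sum_congr rfl fun s _ => ?_))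
        (a1.trans_le (by linarith [y0 f.1 f.2]))
      rw [hH]; dsimp only; split_ifs <;> simp,
    fun C _ => by
      refine le_trans (by rw [cst]; norm_num) (sum_le_sum (f := fun s => μ s *
        if s.1 then -1 else 1) fun s _ => mul_le_mul_of_nonneg_left ?_ (μ0 s))
      rw [hH]; dsimp only
      split_ifs
      · exact neg_one_pow_eq_or ℝ _ |>.elim (fun k => by rw [k]; norm_num) fun k => k.ge
      · simp [hs]⟩ (by
      refine le_trans (le_of_eq (sum_congr rfl fun s _ => ?_)) ((cst (-1) 1).trans_le (by norm_num))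
      rw [hH]; dsimp only
      split_ifs
      · rw [hs_add, hs_en, hs_en, if_pos s.2.1.2, if_neg (disjoint_right.1 dd s.2.2.2),
          if_neg fun k => sw (hD s.2.1.2) (hD k), if_neg fun k => sw (hD' s.2.2.2) (hD k)]
        norm_num
      · simp [hs])
  obtain ⟨e₀, he₀, mn⟩ := exists_min_image (X ×ˢ Xᶜ) (fun e => c e.1 e.2) (by
    rw [nonempty_iff_ne_empty]
    intro z
    simp only [z, ys, sum_empty] at t
    norm_num at t)
  obtain ⟨s, a1⟩ := avg μ0 μ1 fun s => x s + 0 + (cs c (H s) + 2 * cs c (if s.1 then 0 else en e₀))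
  rw [← union_compl X]
  refine (Val.join (H := 0) disjoint_compl_right (fun u v => ?_) (fun u v k => ?_) ?_
    (by rw [zero_add]; exact v s) ?_).mono (a1.trans ?_)
  · split_ifs <;> simp [sy s u v, en_symm _ u v]
  · obtain ⟨e, he, q⟩ : ∃ e ∈ X ×ˢ Xᶜ, e = (u, v) ∨ e = (v, u) := by
      by_cases q : H s u v = 0
      · refine ⟨e₀, he₀, en_ne fun q' => k ?_⟩
        split_ifs <;> simp [q, q']
      · exact su s u v q
    rcases q with rfl | rfl
    exacts [Or.inl (mem_product.1 he), Or.inr (mem_product.1 he).symm]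
  · rw [hH]; dsimp only
    split_ifs
    · exact ⟨_, (mem_product.1 (hD s.2.1.2)).1, _, (mem_product.1 (hD s.2.1.2)).2, by simp [en]⟩
    · exact ⟨_, (mem_product.1 he₀).1, _, (mem_product.1 he₀).2, by simp [en]⟩
  · rw [hX', zero_add]
    refine val_one ?_
    have e := ev s
    rw [hs, sum_product, hX'] at e
    simp only [sum_singleton, sy s _ r] at e
    rw [← sum_add_sum_compl X, hX', sum_singleton, show H s r r = 0 from by_contra fun k => by
      obtain ⟨e, he, rfl | rfl⟩ := su s r r k <;> exact (mm he).2 (mm he).1]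
    exact e
  have a2 := ex (fun e => 2 * c e.1 e.2) (4 * c e₀.1 e₀.2)
  have a3 : ∑ s, μ s * (x s + 0 + (cs c (H s) + 2 * cs c (if s.1 then 0 else en e₀))) =
      ∑ s, μ s * x s + ∑ s, μ s * (if s.1 then 2 * c s.2.1.1.1 s.2.1.1.2 +
        2 * c s.2.2.1.1 s.2.2.1.2 else 4 * c e₀.1 e₀.2) := by
    rw [← sum_add_distrib]
    refine sum_congr rfl fun s _ => ?_
    have q : cs c 0 = 0 := by simp [cs]
    rw [hH]; dsimp only
    split_ifs <;> simp only [cs_add, cs_en hc.1, q] <;> ring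
  have a4 : ∑ e ∈ X ×ˢ Xᶜ, y e.1 e.2 * (2 * c e.1 e.2) =
      2 * ys (fun u v => c u v * y u v) (X ×ˢ Xᶜ) := by
    rw [ys, mul_sum]
    exact sum_congr rfl fun e _ => by ring
  have a5 : 2 * c e₀.1 e₀.2 ≤ ys (fun u v => c u v * y u v) (X ×ˢ Xᶜ) := by
    rw [← t, ys, sum_mul]
    exact sum_le_sum fun e he => by
      rw [mul_comm]; exact mul_le_mul_of_nonneg_right (mn e he) (y0 _ _)
  have a6 : 2 * dot c y = ys (fun u v => c u v * y u v) (X ×ˢ X) +
      2 * ys (fun u v => c u v * y u v) (X ×ˢ Xᶜ) := by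
    have : 2 * dot c y = ys (fun u v => c u v * y u v) ((X ∪ Xᶜ) ×ˢ (X ∪ Xᶜ)) := by
      rw [union_compl, ys, sum_product, dot]; ring
    rw [this, ys_left disjoint_compl_right, ys_right disjoint_compl_right,
      ys_right disjoint_compl_right, ys_swap (fun u v => by rw [hc.1, hy.1]) Xᶜ X]
    have : ys (fun u v => c u v * y u v) (Xᶜ ×ˢ Xᶜ) = 0 := by simp [hX', ys, hy.2.1]
    linarith
  linarith [hc.2.2.1 e₀.1 e₀.2]

theorem ten_sevenths (hn : 3 ≤ Fintype.card V) (hy : y ∈ SubP V) (h : IsCycleCut y)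
    (hc : IsMetric c) :
    ∃ x ∈ SubP V, (∀ u v, ∃ k : ℤ, x u v = k) ∧ dot c x ≤ 10 / 7 * dot c y := by
  obtain ⟨r, Λ, h1, h2⟩ := h
  obtain ⟨a, b⟩ := (spl_of_family hy h2 _ h1).good hy hc
  obtain ⟨D, d1, d2, d3⟩ := b (a.resolve_left fun ⟨v, k⟩ => by
    have := congrArg card k
    rw [card_compl, card_singleton, card_singleton] at this
    omega)
  obtain ⟨z, z1, z2⟩ := (root hy hc r d1 d2 d3).tour hc hn
  exact ⟨z, z1.1, z1.2, by linarith⟩

end

end Pool.Agent.P.MP_92d394_lc.Y
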