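import Pool.Agent.P.MP_92d394_lc.Y.One

/-! Cycle cut points: the invariant and its passage to a child. -/

set_option linter.unusedSectionVars false

namespace Pool.Agent.P.MP_92d394_lc.Y

open Finset

noncomputable section

variable {V : Type} [Fintype V] [DecidableEq V]

def hs (H : V → V → ℕ) (C : Finset (V × V)) : ℕ := ∑ e ∈ C, H e.1 e.2

def ys (y : V → V → ℝ) (C : Finset (V × V)) : ℝ := ∑ e ∈ C, y e.1 e.2

/-- The matrix of one edge. -/
def en (e : V × V) (u v : V) : ℕ := (if e = (u, v) then 1 else 0) + if e = (v, u) then 1 else 0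

def cs (c : V → V → ℝ) (G : V → V → ℕ) : ℝ := ∑ u, ∑ v, c u v * G u v

/-- The matrix of a response. -/
def Bn (r : Bool × Bool → V × V) (n : Bool → Bool → ℕ) (u v : V) : ℕ :=
  ∑ c : Bool × Bool, n c.1 c.2 * en (r c) u v

theorem en_symm (e : V × V) (u v : V) : en e u v = en e v u := add_comm _ _

theorem en_swap (e : V × V) : en e.swap = en e := by
  funext u v
  simp only [en, Prod.swap_eq_iff_eq_swap, Prod.swap_prod_mk, add_comm]

theorem en_ne {e : V × V} {u v : V} (h : en e u v ≠ 0) : e = (u, v) ∨ e = (v, u) := by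
  by_contra k
  push Not at k
  simp [en, k] at h

theorem hs_en (e : V × V) (C : Finset (V × V)) :
    hs (en e) C = (if e ∈ C then 1 else 0) + if e.swap ∈ C then 1 else 0 := by
  have k : ∀ x : V × V, e = (x.2, x.1) ↔ e.swap = x := fun x => Prod.swap_eq_iff_eq_swap.symm
  simp [hs, en, sum_add_distrib, k]

theorem cs_en {c : V → V → ℝ} (hc : ∀ u v, c u v = c v u) (e : V × V) :
    cs c (en e) = 2 * c e.1 e.2 := by
  obtain ⟨a, b⟩ := e
  simp [cs, en, mul_add, sum_add_distrib, ite_and, hc b a, two_mul]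

theorem hs_add (H H' : V → V → ℕ) (C : Finset (V × V)) : hs (H + H') C = hs H C + hs H' C :=
  sum_add_distrib

theorem cs_add (c : V → V → ℝ) (H H' : V → V → ℕ) : cs c (H + H') = cs c H + cs c H' := by
  simp [cs, mul_add, sum_add_distrib]

theorem Bn_symm (r : Bool × Bool → V × V) (n : Bool → Bool → ℕ) (u v : V) :
    Bn r n u v = Bn r n v u := sum_congr rfl fun c _ => by rw [en_symm]

theorem Bn_swap (r : Bool × Bool → V × V) : Bn (fun c => (r c).swap) = Bn r := by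
  funext n u v
  simp only [Bn, en_swap]

theorem Bn_ne {r : Bool × Bool → V × V} {n : Bool → Bool → ℕ} {u v : V} (h : Bn r n u v ≠ 0) :
    ∃ c, r c = (u, v) ∨ r c = (v, u) := by
  obtain ⟨c, -, k⟩ := exists_ne_zero_of_sum_ne_zero h
  exact ⟨c, en_ne (right_ne_zero_of_mul k)⟩

theorem hs_Bn {r : Bool × Bool → V × V} (n : Bool → Bool → ℕ) {C : Finset (V × V)}
    (h : ∀ c, (r c).swap ∉ C) : hs (Bn r n) C = cnt (fun x y => decide (r (x, y) ∈ C)) n := by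
  have e : hs (Bn r n) C = ∑ c : Bool × Bool, n c.1 c.2 * hs (en (r c)) C := by
    simp only [hs, Bn, mul_sum]
    exact sum_comm
  simp only [e, hs_en, h, Fintype.sum_prod_type, Fintype.sum_bool, cnt]
  simp
  ring

theorem cs_Bn {c : V → V → ℝ} (hc : ∀ u v, c u v = c v u) (r : Bool × Bool → V × V)
    (n : Bool → Bool → ℕ) :
    cs c (Bn r n) = ∑ x : Bool × Bool, n x.1 x.2 * (2 * c (r x).1 (r x).2) := by
  simp only [← cs_en hc]
  simp only [cs, Bn, mul_sum, Nat.cast_sum, Nat.cast_mul]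
  rw [sum_comm (s := (univ : Finset (Bool × Bool)))]
  refine sum_congr rfl fun u _ => ?_
  rw [sum_comm]
  exact sum_congr rfl fun v _ => sum_congr rfl fun x _ => by ring

theorem sg_odd (n : ℕ) : sg (decide (Odd n)) = (-1) ^ n := by
  rcases n.even_or_odd with h | h
  · simp [sg, h.neg_one_pow, Nat.not_odd_iff_even.2 h]
  · simp [sg, h.neg_one_pow, h]

theorem ib_odd (n : ℕ) : ib (decide (Odd n)) ≤ n := by
  rcases n with _ | n
  · simp [ib]
  · have : (0 : ℝ) ≤ n := n.cast_nonneg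
    unfold ib
    push_cast
    split_ifs <;> linarith

variable {Ω Γ Θ : Type} [Fintype Ω] [Fintype Γ] [Fintype Θ]

/-- The invariant for the random multiset of edges that leave `S`. -/
structure Inv (y : V → V → ℝ) (S : Finset V) (μ : Ω → ℝ) (H : Ω → V → V → ℕ) : Prop where
  nn : ∀ ω, 0 ≤ μ ω
  one : ∑ ω, μ ω = 1
  sy : ∀ ω u v, H ω u v = H ω v u
  ze : ∀ ω, ∀ u ∈ S, ∀ v ∈ S, H ω u v = 0
  ev : ∀ ω, Even (hs (H ω) (S ×ˢ Sᶜ))
  den : ∀ e ∈ S ×ˢ Sᶜ, ∑ ω, μ ω * H ω e.1 e.2 ≤ 10 / 7 * y e.1 e.2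
  i2 : ∀ C ⊆ S ×ˢ Sᶜ, -5 / 7 ≤ ∑ ω, μ ω * (-1) ^ hs (H ω) C

def μ' (w : Θ → ℝ) (μ : Ω → ℝ) (K : Ω → Γ → ℝ) (s : Θ × Ω × Γ) : ℝ :=
  w s.1 * (μ s.2.1 * K s.2.1 s.2.2)

def H' (H : Ω → V → V → ℕ) (r : Θ → Bool × Bool → V × V) (n : Ω → Γ → Bool → Bool → ℕ)
    (s : Θ × Ω × Γ) : V → V → ℕ := H s.2.1 + Bn (r s.1) (n s.2.1 s.2.2)

theorem sum_μ' (w : Θ → ℝ) (μ : Ω → ℝ) (K : Ω → Γ → ℝ) (F : Θ × Ω × Γ → ℝ) :
    ∑ s, μ' w μ K s * F s = ∑ θ, w θ * ∑ ω, μ ω * ∑ γ, K ω γ * F (θ, ω, γ) := by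
  simp only [Fintype.sum_prod_type, μ', mul_sum, mul_assoc]

variable {y : V → V → ℝ} {L R : Finset V} {μ : Ω → ℝ} {H : Ω → V → V → ℕ} {p α β : Ω → Bool}
  {K : Ω → Γ → ℝ} {n : Ω → Γ → Bool → Bool → ℕ} {w : Θ → ℝ} {r : Θ → Bool × Bool → V × V}

theorem Inv.hs_H' (h : Inv y (L ∪ R) μ H) (d : Disjoint L R) (hr : ∀ θ c, r θ c ∈ L ×ˢ R)
    {C : Finset (V × V)} (hC : C ⊆ L ×ˢ Lᶜ) (s : Θ × Ω × Γ) :
    hs (H' H r n s) C = hs (H s.2.1) (C.filter fun e => e.2 ∉ L ∪ R) +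
      cnt (fun x y => decide (r s.1 (x, y) ∈ C)) (n s.2.1 s.2.2) := by
  rw [H', hs_add, hs_Bn _ fun c k => disjoint_left.1 d (mem_product.1 (hC k)).1
    (mem_product.1 (hr _ c)).2, hs, hs, sum_filter]
  congr 1
  refine sum_congr rfl fun e he => ?_
  split_ifs with k
  · exact h.ze _ _ (mem_union_left _ (mem_product.1 (hC he)).1) _ k
  · rfl

theorem Inv.child (h : Inv y (L ∪ R) μ H) (d : Disjoint L R) (k : Ker μ p α β K n)
    (p1 : ∀ ω, sg (p ω) = (-1) ^ hs (H ω) (L ×ˢ (L ∪ R)ᶜ))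
    (p2 : ∀ ω, sg (p ω) = (-1) ^ hs (H ω) (R ×ˢ (L ∪ R)ᶜ)) (w0 : ∀ θ, 0 ≤ w θ)
    (w1 : ∑ θ, w θ = 1) (hr : ∀ θ c, r θ c ∈ L ×ˢ R)
    (dn : ∀ e ∈ L ×ˢ R, ∑ s, μ' w μ K s * Bn (r s.1) (n s.2.1 s.2.2) e.1 e.2 ≤
      10 / 7 * y e.1 e.2) : Inv y L (μ' w μ K) (H' H r n) := by
  have lift : ∀ F : Ω → ℝ, ∑ s, μ' w μ K s * F s.2.1 = ∑ ω, μ ω * F ω := fun F => by
    simp only [sum_μ', ← sum_mul, k.one, w1, one_mul]
  have bz : ∀ θ m u v, u ∈ L → v ∉ R → Bn (r θ) m u v = 0 := fun θ m u v hu hv => by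
    by_contra c
    obtain ⟨c, e | e⟩ := Bn_ne c
    · exact hv (by simpa [e] using (mem_product.1 (hr θ c)).2)
    · exact disjoint_left.1 d hu (by simpa [e] using (mem_product.1 (hr θ c)).2)
  refine ⟨fun s => mul_nonneg (w0 _) (mul_nonneg (h.nn _) (k.nn _ _)),
    by simpa [h.one] using lift fun _ => 1, fun s u v => ?_, fun s u hu v hv => ?_, fun s => ?_,
    fun e he => ?_, fun C hC => ?_⟩
  · simp only [H', Pi.add_apply, h.sy _ u v, Bn_symm _ _ u v]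
  · simp only [H', Pi.add_apply, h.ze _ u (mem_union_left _ hu) v (mem_union_left _ hv),
      bz _ _ u v hu (disjoint_left.1 d hv)]
  · have e1 : (L ×ˢ Lᶜ).filter (fun e => e.2 ∉ L ∪ R) = L ×ˢ (L ∪ R)ᶜ := by
      ext e; simp; tauto
    have e2 : ∀ c, r s.1 c ∈ L ×ˢ Lᶜ := fun c => mem_product.2 ⟨(mem_product.1 (hr _ c)).1,
      mem_compl.2 (disjoint_right.1 d (mem_product.1 (hr _ c)).2)⟩
    rw [h.hs_H' d hr Subset.rfl, e1, ← neg_one_pow_eq_one_iff_even (R := ℝ) (by norm_num),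
      pow_add, ← p1]
    simp only [cnt, e2, decide_true, if_true]
    change _ * (-1) ^ tot _ = _
    rcases k.tt s.2.1 s.2.2 with ⟨a, b⟩ | ⟨a, b | b⟩ <;> simp [a, b, sg]
  · obtain ⟨e1, e2⟩ := mem_product.1 he
    by_cases c : e.2 ∈ R
    · simpa only [H', Pi.add_apply, h.ze _ _ (mem_union_left _ e1) _ (mem_union_right _ c),
        zero_add] using dn e (mem_product.2 ⟨e1, c⟩)
    · simp only [H', Pi.add_apply, bz _ _ _ _ e1 c, add_zero]
      rw [lift fun ω => (H ω e.1 e.2 : ℝ)]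
      exact h.den e (mem_product.2 ⟨mem_union_left _ e1, by simpa [c] using e2⟩)
  · have e1 : C.filter (fun e => e.2 ∉ L ∪ R) ⊆ (L ∪ R) ×ˢ (L ∪ R)ᶜ := fun e he =>
      mem_product.2 ⟨mem_union_left _ (mem_product.1 (hC (mem_filter.1 he).1)).1,
        mem_compl.2 (mem_filter.1 he).2⟩
    have e2 : Disjoint (C.filter fun e => e.2 ∉ L ∪ R) (R ×ˢ (L ∪ R)ᶜ) :=
      disjoint_left.2 fun e he he' => disjoint_left.1 d
        (mem_product.1 (hC (mem_filter.1 he).1)).1 (mem_product.1 he').1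
    have e3 := h.i2 _ (union_subset e1 (product_subset_product_left (subset_union_right (s₁ := L))))
    simp only [hs, sum_union e2, pow_add] at e3
    rw [sum_μ']
    refine le_trans (le_of_eq (by rw [← sum_mul, w1, one_mul]))
      (sum_le_sum fun θ _ => mul_le_mul_of_nonneg_left ((k.sf
        (fun x y => decide (r θ (x, y) ∈ C))
        (fun ω => (-1) ^ hs (H ω) (C.filter fun e => e.2 ∉ L ∪ R)) (fun ω => by simp) (h.i2 _ e1)
        (by simpa only [p2, hs] using e3)).trans_eq (sum_congr rfl fun ω _ => ?_)) (w0 θ))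
    simp only [h.hs_H' d hr hC, pow_add, mul_sum]
    exact sum_congr rfl fun γ _ => by ring

theorem Inv.good (h : Inv y (L ∪ R) μ H) (d : Disjoint L R) (w1 : ∑ θ, w θ = 1)
    (hr : ∀ θ c, r θ c ∈ L ×ˢ R) {D : Finset (V × V)} (hD : D ⊆ L ×ˢ Lᶜ)
    {U : Bool → Bool → Bool} (a : ∀ ω, sg (α ω) = (-1) ^ hs (H ω) (D.filter fun e => e.2 ∉ L ∪ R))
    (u : ∀ s x y, μ' w μ K s ≠ 0 → n s.2.1 s.2.2 x y ≠ 0 → decide (r s.1 (x, y) ∈ D) = U x y) :
    ∑ s, μ' w μ K s * (-1) ^ hs (H' H r n s) D =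
      ∑ ω, μ ω * (sg (α ω) * ∑ γ, K ω γ * (-1) ^ cnt U (n ω γ)) := by
  have e : ∀ s, μ' w μ K s * (-1) ^ hs (H' H r n s) D =
      μ' w μ K s * (sg (α s.2.1) * (-1) ^ cnt U (n s.2.1 s.2.2)) := fun s => by
    by_cases c : μ' w μ K s = 0
    · rw [c, zero_mul, zero_mul]
    have k : ∀ x y, (if decide (r s.1 (x, y) ∈ D) then n s.2.1 s.2.2 x y else 0) =
        if U x y then n s.2.1 s.2.2 x y else 0 := fun x y => by
      by_cases z : n s.2.1 s.2.2 x y = 0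
      · simp [z]
      · rw [u s x y c z]
    rw [h.hs_H' d hr hD, pow_add, a]
    simp only [cnt, k]
  simp only [e, sum_μ', ← sum_mul, w1, one_mul]
  refine sum_congr rfl fun ω _ => ?_
  simp only [mul_sum]
  exact sum_congr rfl fun γ _ => by ring

theorem sum_fac {B : Type} [Fintype B] (ψ : Bool × Bool → B → ℝ) (h : ∀ c, ∑ e, ψ c e = 1)
    (c₀ : Bool × Bool) (F : B → ℝ) :
    ∑ θ : Bool × Bool → B, (∏ c, ψ c (θ c)) * F (θ c₀) = ∑ e, ψ c₀ e * F e := by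
  have e : ∀ θ : Bool × Bool → B, (∏ c, ψ c (θ c)) * F (θ c₀) =
      ∏ c, ψ c (θ c) * if c = c₀ then F (θ c) else 1 := fun θ => by
    rw [prod_mul_distrib, prod_ite_eq', if_pos (mem_univ _)]
  simp only [e]
  rw [← Fintype.piFinset_univ, ← prod_univ_sum (fun _ => univ)
    fun c e => ψ c e * if c = c₀ then F e else 1, prod_eq_single c₀
      (fun c _ k => by simp [k, h]) (by simp)]
  simp

theorem exists_psi {B : Type} [Fintype B] (z : B → ℝ) (h0 : ∀ e, 0 ≤ z e) (h1 : ∑ e, z e = 1)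
    (cl : B → Bool × Bool) : ∃ ψ : Bool × Bool → B → ℝ, (∀ c e, 0 ≤ ψ c e) ∧
      (∀ c, ∑ e, ψ c e = 1) ∧ ∀ c e,
        (∑ e, if cl e = c then z e else 0) * ψ c e = if cl e = c then z e else 0 := by
  have k : ∀ c e, 0 ≤ if cl e = c then z e else 0 := fun c e => by
    split_ifs
    exacts [h0 e, le_rfl]
  refine ⟨fun c e => if (∑ e, if cl e = c then z e else 0) = 0 then z e else
    (if cl e = c then z e else 0) / ∑ e, if cl e = c then z e else 0, fun c e => ?_, fun c => ?_,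
    fun c e => ?_⟩ <;> by_cases b : (∑ e, if cl e = c then z e else 0) = 0
  · simpa only [if_pos b] using h0 e
  · simpa only [if_neg b] using div_nonneg (k c e) (sum_nonneg fun e _ => k c e)
  · simpa only [if_pos b] using h1
  · simp only [if_neg b]
    rw [← sum_div, div_self b]
  · rw [b, zero_mul, (sum_eq_zero_iff_of_nonneg fun e _ => k c e).1 b e (mem_univ e)]
  · simp only [if_neg b]
    rw [mul_div_cancel₀ _ b]

end

end Pool.Agent.P.MP_92d394_lc.Y
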