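import Pool.Agent.P.MP_92d394_lc.Y.V1

/-! Cycle cut points: the step lemma on a finite probability space. -/

namespace Pool.Agent.P.MP_92d394_lc.Y

open Finset

noncomputable section

theorem markov {ι : Type} [DecidableEq ι] (I : Finset ι) (hI : I.Nonempty) (M : ι → ι → ℝ)
    (h1 : ∀ c ∈ I, ∀ c' ∈ I, c ≠ c' → M c c' ≤ 0) (h2 : ∀ c ∈ I, ∑ c' ∈ I, M c c' ≤ 0) :
    ∃ t : ι → ℝ, (∀ c, 0 ≤ t c) ∧ 0 < ∑ c ∈ I, t c ∧ ∀ c' ∈ I, ∑ c ∈ I, t c * M c c' ≤ 0 := by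
  induction I using Finset.induction_on generalizing M with
  | empty => exact absurd hI not_nonempty_empty
  | insert n I hn ih =>
    have n0 := mem_insert_self n I
    have ne : ∀ c ∈ I, c ≠ n := fun c hc e => hn (e ▸ hc)
    rcases le_or_gt (M n n) 0 with k | k
    · refine ⟨fun c => if c = n then 1 else 0, fun c => by positivity, by simp, fun c hc => ?_⟩
      simp only [ite_mul, one_mul, zero_mul, sum_ite_eq', n0, if_true]
      rcases eq_or_ne n c with rfl | e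
      exacts [k, h1 n n0 c hc e]
    have hI' : I.Nonempty := by
      rw [nonempty_iff_ne_empty]
      rintro rfl
      simpa [k.not_ge] using h2 n n0
    obtain ⟨s, s0, s1⟩ : ∃ s : ι → ℝ, (∀ c ∈ I, 0 ≤ s c) ∧ ∀ c, M c n + s c * M n n = 0 :=
      ⟨fun c => -M c n / M n n, fun c hc =>
        div_nonneg (neg_nonneg.2 (h1 c (mem_insert_of_mem hc) n n0 (ne c hc))) k.le,
        fun c => by rw [div_mul_cancel₀ _ k.ne', add_neg_cancel]⟩
    obtain ⟨t, t0, t1, t2⟩ := ih hI' (fun c c' => M c c' + s c * M n c')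
      (fun c hc c' hc' e => add_nonpos (h1 c (mem_insert_of_mem hc) c' (mem_insert_of_mem hc') e)
        (mul_nonpos_of_nonneg_of_nonpos (s0 c hc)
          (h1 n n0 c' (mem_insert_of_mem hc') (ne c' hc').symm)))
      fun c hc => by
        have e1 := h2 c (mem_insert_of_mem hc)
        have e2 := mul_nonpos_of_nonneg_of_nonpos (s0 c hc) (h2 n n0)
        rw [sum_insert hn] at e1 e2
        rw [sum_add_distrib, ← mul_sum]
        linarith [s1 c]
    have p : 0 ≤ ∑ c ∈ I, t c * s c := sum_nonneg fun c hc => mul_nonneg (t0 c) (s0 c hc)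
    refine ⟨fun c => if c = n then ∑ c ∈ I, t c * s c else t c, fun c => ?_, ?_, fun c' hc' => ?_⟩
    · beta_reduce
      split_ifs
      exacts [p, t0 c]
    · rw [sum_insert hn, if_pos rfl, sum_congr rfl fun c hc => if_neg (ne c hc)]
      linarith
    · have e : ∑ c ∈ insert n I, (if c = n then ∑ c ∈ I, t c * s c else t c) * M c c' =
          ∑ c ∈ I, t c * (M c c' + s c * M n c') := by
        rw [sum_insert hn, if_pos rfl, sum_mul, ← sum_add_distrib]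
        exact sum_congr rfl fun c hc => by rw [if_neg (ne c hc)]; ring
      rw [e]
      rcases mem_insert.1 hc' with rfl | hc'
      · simp [s1]
      · exact t2 c' hc'

/-- The number of chosen cells in `U`. -/
def cnt (U : Bool → Bool → Bool) (n : Bool → Bool → ℕ) : ℕ :=
  (if U false false then n false false else 0) + (if U false true then n false true else 0) +
    (if U true false then n true false else 0) + if U true true then n true true else 0

def tot (n : Bool → Bool → ℕ) : ℕ := n false false + n false true + n true false + n true true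

/-- The cells chosen by the five outcomes; the default cell is `(false, false)`. -/
def nn (p : Bool) (o : Fin 5) (x y : Bool) : ℕ :=
  (![!x && !y && p, !y && (x || !p), !x && (y || !p), x && y || !x && !y && !p,
    if p then !x && !y else xor x y] o).toNat

def kk (f h z d : ℝ) : Fin 5 → ℝ := ![1 - f - h - z - d, f, h, z, d]

theorem kk_sign (p : Bool) (U : Bool → Bool → Bool) (i j : Bool) {f h z d : ℝ}
    (hd : p = true → d = 0) :
    ∑ o, kk f h z d o * (-1) ^ cnt U (fun x y => nn p o (xor x i) (xor y j)) =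
      (if U i j then sg p else 1) * (1 - 2 * (ib (xor (U (!i) j) (U i j)) * f +
        ib (xor (U i (!j)) (U i j)) * h + ib (xor (U (!i) (!j)) (U i j)) * z +
        ib (xor (xor (U (!i) j) (U i j)) (xor (U i (!j)) (U i j))) * d)) := by
  simp only [Fin.sum_univ_five, cnt]
  generalize e1 : U false false = u1
  generalize e2 : U false true = u2
  generalize e3 : U true false = u3
  generalize e4 : U true true = u4
  cases p <;> cases i <;> cases j <;> simp only [Bool.not_false, Bool.not_true, e1, e2, e3, e4] <;>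
    cases u1 <;> cases u2 <;> cases u3 <;> cases u4 <;> simp [kk, nn, sg, ib, hd] <;> ring

theorem kk_use (p i j : Bool) {f h z d : ℝ} (hd : p = true → d = 0) :
    ∑ o, kk f h z d o * nn p o (xor (!i) i) (xor j j) = f + d ∧
      ∑ o, kk f h z d o * nn p o (xor i i) (xor (!j) j) = h + d ∧
      ∑ o, kk f h z d o * nn p o (xor (!i) i) (xor (!j) j) = z := by
  cases p <;> cases i <;> cases j <;> simp [Fin.sum_univ_five, kk, nn, hd]

variable {Ω Γ : Type} [Fintype Ω] [Fintype Γ]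

/-- The law of the state. -/
def ms (μ : Ω → ℝ) (p a b : Ω → Bool) : B3 := fun x y z =>
  ∑ ω, if p ω = x ∧ a ω = y ∧ b ω = z then μ ω else 0

theorem E_ms (μ : Ω → ℝ) (p a b : Ω → Bool) (G : B3) :
    E (ms μ p a b) G = ∑ ω, μ ω * G (p ω) (a ω) (b ω) := by
  simp only [E, ms, sum_mul, ← sum_add_distrib]
  refine sum_congr rfl fun ω _ => ?_
  cases p ω <;> cases a ω <;> cases b ω <;> simp

/-- What is known before the step. -/
structure Hy (μ : Ω → ℝ) (p : Ω → Bool) (a a' : Bool → Ω → Bool) (k : Bool → Bool → ℝ) :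
    Prop where
  nn : ∀ ω, 0 ≤ μ ω
  one : ∑ ω, μ ω = 1
  xa : ∀ ω, xor (a false ω) (a true ω) = p ω
  xb : ∀ ω, xor (a' false ω) (a' true ω) = p ω
  hp : ∑ ω, μ ω * sg (p ω) ≤ -1 / 7
  i2 : ∀ i j, -5 / 7 ≤ ∑ ω, μ ω * (sg (a i ω) * sg (a' j ω))
  k0 : ∀ x y, 0 ≤ k x y
  da : ∀ i j, ∑ ω, μ ω * ib (a i ω) ≤ k (!i) j + k (!i) (!j)
  db : ∀ i j, ∑ ω, μ ω * ib (a' j ω) ≤ k i (!j) + k (!i) (!j)
  k1 : k false false + k false true + k true false + k true true = 10 / 7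

/-- A random response with all properties except the bounds on the usage. -/
structure Ker (μ : Ω → ℝ) (p a a' : Ω → Bool) (K : Ω → Γ → ℝ)
    (n : Ω → Γ → Bool → Bool → ℕ) : Prop where
  nn : ∀ ω γ, 0 ≤ K ω γ
  one : ∀ ω, ∑ γ, K ω γ = 1
  tt : ∀ ω γ, p ω = true ∧ tot (n ω γ) = 1 ∨ p ω = false ∧ (tot (n ω γ) = 0 ∨ tot (n ω γ) = 2)
  gL : ∑ ω, μ ω * (sg (a ω) * ∑ γ, K ω γ * (-1) ^ cnt (fun x _ => !x) (n ω γ)) ≤ -1 / 7
  gR : ∑ ω, μ ω * (sg (a' ω) * ∑ γ, K ω γ * (-1) ^ cnt (fun _ y => !y) (n ω γ)) ≤ -1 / 7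
  sf : ∀ (U : Bool → Bool → Bool) (χ : Ω → ℝ), (∀ ω, |χ ω| ≤ 1) → -5 / 7 ≤ ∑ ω, μ ω * χ ω →
    -5 / 7 ≤ ∑ ω, μ ω * (χ ω * sg (p ω)) →
      -5 / 7 ≤ ∑ ω, μ ω * (χ ω * ∑ γ, K ω γ * (-1) ^ cnt U (n ω γ))

variable {μ : Ω → ℝ} {p : Ω → Bool} {a a' : Bool → Ω → Bool} {k : Bool → Bool → ℝ}

theorem Sf.use {α β : Ω → Bool} {q : B3} (h : Sf (ms μ p α β) q) (hμ : ∀ ω, 0 ≤ μ ω)
    {χ : Ω → ℝ} (h0 : ∀ ω, |χ ω| ≤ 1) (h1 : -5 / 7 ≤ ∑ ω, μ ω * χ ω)
    (h2 : -5 / 7 ≤ ∑ ω, μ ω * (χ ω * sg (p ω))) :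
    -5 / 7 ≤ ∑ ω, μ ω * (χ ω * (1 - 2 * q (p ω) (α ω) (β ω))) := by
  obtain ⟨s, t, hs, ht, e⟩ := h
  rw [E_ms] at e
  have k : s * ∑ ω, μ ω * χ ω + t * ∑ ω, μ ω * (χ ω * sg (p ω)) -
      ∑ ω, μ ω * |1 - 2 * q (p ω) (α ω) (β ω) - s - t * sg (p ω)| ≤
      ∑ ω, μ ω * (χ ω * (1 - 2 * q (p ω) (α ω) (β ω))) := by
    rw [mul_sum, mul_sum, ← sum_add_distrib, ← sum_sub_distrib]
    refine sum_le_sum fun ω _ => ?_
    have k1 := neg_abs_le (χ ω * (1 - 2 * q (p ω) (α ω) (β ω) - s - t * sg (p ω)))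
    rw [abs_mul] at k1
    have k2 := mul_le_mul_of_nonneg_right (h0 ω)
      (abs_nonneg (1 - 2 * q (p ω) (α ω) (β ω) - s - t * sg (p ω)))
    have k3 := mul_le_mul_of_nonneg_left ((neg_le_neg k2).trans k1) (hμ ω)
    linarith
  linarith [mul_le_mul_of_nonneg_left h1 hs, mul_le_mul_of_nonneg_left h2 ht]

theorem sg_aux (a : Bool → Bool) (i : Bool) :
    sg (a false) * (if !i then sg (xor (a false) (a true)) else 1) = sg (a (!i)) := by
  cases i <;> cases e : a false <;> cases e' : a true <;> simp [sg, e, e']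

theorem xor_aux (a : Bool → Bool) (i : Bool) : xor (a (!i)) (xor (a false) (a true)) = a i := by
  cases i <;> cases e : a false <;> cases e' : a true <;> simp [e, e']

theorem Hy.cell (H : Hy μ p a a' k) (i j : Bool) : ∃ K : Ω → Fin 5 → ℝ,
    Ker μ p (a false) (a' false) K (fun ω o x y => Y.nn (p ω) o (xor x i) (xor y j)) ∧
      ∀ x y, (x, y) ≠ (i, j) →
        ∑ ω, μ ω * ∑ o, K ω o * Y.nn (p ω) o (xor x i) (xor y j) ≤ k x y := by
  have xa : ∀ ω, xor (a (!i) ω) (p ω) = a i ω := fun ω => by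
    rw [← H.xa ω]; exact xor_aux (a · ω) i
  have xb : ∀ ω, xor (a' (!j) ω) (p ω) = a' j ω := fun ω => by
    rw [← H.xb ω]; exact xor_aux (a' · ω) j
  have hm : Pm (ms μ p (a (!i)) (a' (!j))) :=
    ⟨fun _ _ _ => sum_nonneg fun ω _ => by split_ifs; exacts [H.nn ω, le_rfl],
      by simpa [E_ms] using H.one⟩
  obtain ⟨f, h, z, d, p1, p2, p3, p4, p5, p6, p7, p8⟩ := ach_all hm (by simpa [E_ms] using H.hp)
    (by simpa [E_ms] using H.i2 (!i) (!j)) (by simpa only [E_ms, xa] using H.i2 i (!j))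
    (H.k0 (!i) j) (H.k0 i (!j)) (H.k0 (!i) (!j)) (by simpa only [E_ms, xa] using H.da i j)
    (by simpa only [E_ms, xb] using H.db i j)
  have hd : ∀ ω, p ω = true → d (p ω) (a (!i) ω) (a' (!j) ω) = 0 := fun ω e => by rw [e, p2]
  simp only [E_ms] at p3 p4 p5 p6 p7
  refine ⟨fun ω => kk (f (p ω) (a (!i) ω) (a' (!j) ω)) (h (p ω) (a (!i) ω) (a' (!j) ω))
    (z (p ω) (a (!i) ω) (a' (!j) ω)) (d (p ω) (a (!i) ω) (a' (!j) ω)),
    ⟨fun ω o => ?_, fun ω => by simp [kk, Fin.sum_univ_five]; ring, fun ω o => ?_, ?_, ?_,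
      fun U χ h0 h1 h2 => ?_⟩, fun x y hxy => ?_⟩
  · obtain ⟨x1, x2, x3, x4, x5⟩ := p1 (p ω) (a (!i) ω) (a' (!j) ω)
    fin_cases o <;> simp [kk, *]
    linarith
  · cases p ω <;> cases i <;> cases j <;> fin_cases o <;> simp [tot, Y.nn]
  · refine le_trans (le_of_eq ?_) (by linarith : ∑ ω, μ ω * sg (a (!i) ω) -
      2 * ∑ ω, μ ω * ((f (p ω) (a (!i) ω) (a' (!j) ω) + z (p ω) (a (!i) ω) (a' (!j) ω) +
        d (p ω) (a (!i) ω) (a' (!j) ω)) * sg (a (!i) ω)) ≤ -1 / 7)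
    rw [mul_sum, ← sum_sub_distrib]
    refine sum_congr rfl fun ω _ => ?_
    have e : sg (a false ω) * (if !i then sg (p ω) else 1) = sg (a (!i) ω) := by
      rw [← H.xa ω]
      exact sg_aux (a · ω) i
    rw [kk_sign _ _ _ _ (hd ω), ← mul_assoc (sg _), e]
    cases i <;> simp [ib] <;> ring
  · refine le_trans (le_of_eq ?_) (by linarith : ∑ ω, μ ω * sg (a' (!j) ω) -
      2 * ∑ ω, μ ω * ((h (p ω) (a (!i) ω) (a' (!j) ω) + z (p ω) (a (!i) ω) (a' (!j) ω) +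
        d (p ω) (a (!i) ω) (a' (!j) ω)) * sg (a' (!j) ω)) ≤ -1 / 7)
    rw [mul_sum, ← sum_sub_distrib]
    refine sum_congr rfl fun ω _ => ?_
    have e : sg (a' false ω) * (if !j then sg (p ω) else 1) = sg (a' (!j) ω) := by
      rw [← H.xb ω]
      exact sg_aux (a' · ω) j
    rw [kk_sign _ _ _ _ (hd ω), ← mul_assoc (sg _), e]
    cases j <;> simp [ib] <;> ring
  · have s := p8 (xor (U (!i) j) (U i j)) (xor (U i (!j)) (U i j)) (xor (U (!i) (!j)) (U i j))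
    have e : ∀ b, sg b * sg b = 1 := fun b => by cases b <;> simp [sg]
    refine (s.use H.nn (χ := fun ω => χ ω * if U i j then sg (p ω) else 1) (fun ω => ?_) ?_
      ?_).trans_eq (sum_congr rfl fun ω _ => ?_)
    · cases U i j <;> cases p ω <;> simpa [sg] using h0 ω
    · cases U i j <;> simpa
    · cases U i j <;> simpa [mul_assoc, e]
    · rw [kk_sign _ _ _ _ (hd ω), mul_assoc (χ ω)]
      rfl
  · have u := fun ω => kk_use (p ω) i j (f := f (p ω) (a (!i) ω) (a' (!j) ω))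
      (h := h (p ω) (a (!i) ω) (a' (!j) ω)) (z := z (p ω) (a (!i) ω) (a' (!j) ω)) (hd ω)
    have : x = !i ∧ y = j ∨ x = i ∧ y = !j ∨ x = !i ∧ y = !j := by
      revert hxy; cases x <;> cases y <;> cases i <;> cases j <;> simp
    rcases this with ⟨rfl, rfl⟩ | ⟨rfl, rfl⟩ | ⟨rfl, rfl⟩
    · simpa only [(u _).1] using p5
    · simpa only [(u _).2.1] using p6
    · simpa only [(u _).2.2] using p7

theorem Ker.cost {α β : Ω → Bool} {K : Ω → Γ → ℝ} {n : Ω → Γ → Bool → Bool → ℕ}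
    (h : Ker μ p α β K n) (h1 : ∑ ω, μ ω = 1) (h2 : ∑ ω, μ ω * sg (p ω) ≤ -1 / 7) :
    ∑ ω, μ ω * ∑ γ, K ω γ * (tot (n ω γ) + if tot (n ω γ) = 0 then 2 else 0) ≤ 10 / 7 := by
  refine le_trans (le_of_eq ?_)
    (by linarith : 3 / 2 * ∑ ω, μ ω + 1 / 2 * ∑ ω, μ ω * sg (p ω) ≤ 10 / 7)
  rw [mul_sum, mul_sum, ← sum_add_distrib]
  refine sum_congr rfl fun ω _ => ?_
  have e : ∀ γ, ((tot (n ω γ) : ℝ) + if tot (n ω γ) = 0 then 2 else 0) = 3 / 2 + sg (p ω) / 2 :=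
    fun γ => by rcases h.tt ω γ with ⟨e, f⟩ | ⟨e, f | f⟩ <;> simp [e, f, sg] <;> norm_num
  simp only [e, ← sum_mul, h.one]
  ring

theorem mix_sum {ι : Type} [Fintype ι] (t : ι → ℝ) (K : ι → Ω → Γ → ℝ) (χ : Ω → ℝ)
    (F : Ω → ι → Γ → ℝ) :
    ∑ ω, μ ω * (χ ω * ∑ γ : ι × Γ, t γ.1 * K γ.1 ω γ.2 * F ω γ.1 γ.2) =
      ∑ c, t c * ∑ ω, μ ω * (χ ω * ∑ γ, K c ω γ * F ω c γ) := by
  simp only [Fintype.sum_prod_type, mul_sum]
  rw [sum_comm]
  exact sum_congr rfl fun c _ => sum_congr rfl fun ω _ => sum_congr rfl fun γ _ => by ring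

/-- The step lemma. -/
theorem Hy.step (H : Hy μ p a a' k) : ∃ (K : Ω → (Bool × Bool) × Fin 5 → ℝ)
    (n : Ω → (Bool × Bool) × Fin 5 → Bool → Bool → ℕ), Ker μ p (a false) (a' false) K n ∧
      ∀ x y, ∑ ω, μ ω * ∑ γ, K ω γ * n ω γ x y ≤ k x y := by
  choose K h1 h2 using fun c : Bool × Bool => H.cell c.1 c.2
  obtain ⟨t, t0, t1, t2⟩ := markov univ univ_nonempty (fun c c' : Bool × Bool =>
    ∑ ω, μ ω * ∑ o, K c ω o * Y.nn (p ω) o (xor c'.1 c.1) (xor c'.2 c.2) - k c'.1 c'.2)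
    (fun c _ c' _ e => sub_nonpos.2 (h2 c _ _ e.symm)) fun c _ => by
      have e := (h1 c).cost H.one H.hp
      rw [sum_sub_distrib, sub_nonpos, sum_comm]
      refine le_trans (le_trans (sum_le_sum fun ω _ => ?_) e) (le_of_eq ?_)
      · rw [← mul_sum, sum_comm]
        refine mul_le_mul_of_nonneg_left (sum_le_sum fun o _ => ?_) (H.nn ω)
        rw [← mul_sum]
        refine mul_le_mul_of_nonneg_left (le_trans (le_of_eq ?_) (le_add_of_nonneg_right
          (by positivity))) ((h1 c).nn ω o)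
        simp only [Fintype.sum_prod_type, Fintype.sum_bool, tot]
        push_cast
        ring
      · simp only [Fintype.sum_prod_type, Fintype.sum_bool]
        linarith [H.k1]
  obtain ⟨s, s0, s1, s2⟩ : ∃ s : Bool × Bool → ℝ, (∀ c, 0 ≤ s c) ∧ ∑ c, s c = 1 ∧
      ∀ x y, ∑ c, s c * ∑ ω, μ ω * ∑ o, K c ω o * Y.nn (p ω) o (xor x c.1) (xor y c.2) ≤ k x y := by
    refine ⟨fun c => t c / ∑ c, t c, fun c => div_nonneg (t0 c) t1.le, by
      rw [← sum_div, div_self t1.ne'], fun x y => ?_⟩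
    have e := t2 (x, y) (mem_univ _)
    simp only [mul_sub, sum_sub_distrib, ← sum_mul] at e
    simp only [div_mul_eq_mul_div, ← sum_div]
    rw [div_le_iff₀ t1]
    linarith
  have le : ∀ {F : Bool × Bool → ℝ} {x : ℝ}, (∀ c, F c ≤ x) → ∑ c, s c * F c ≤ x := fun h =>
    (sum_le_sum fun c _ => mul_le_mul_of_nonneg_left (h c) (s0 c)).trans_eq
      (by rw [← sum_mul, s1, one_mul])
  have ge : ∀ {F : Bool × Bool → ℝ} {x : ℝ}, (∀ c, x ≤ F c) → x ≤ ∑ c, s c * F c := fun h =>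
    le_trans (le_of_eq (by rw [← sum_mul, s1, one_mul]))
      (sum_le_sum fun c _ => mul_le_mul_of_nonneg_left (h c) (s0 c))
  refine ⟨fun ω γ => s γ.1 * K γ.1 ω γ.2,
    fun ω γ x y => Y.nn (p ω) γ.2 (xor x γ.1.1) (xor y γ.1.2),
    ⟨fun ω γ => mul_nonneg (s0 _) ((h1 _).nn _ _), fun ω => ?_, fun ω γ => (h1 γ.1).tt ω γ.2,
      (mix_sum s K _ fun ω c o => (-1) ^ cnt _ fun x y =>
        Y.nn (p ω) o (xor x c.1) (xor y c.2)).trans_le (le fun c => (h1 c).gL),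
      (mix_sum s K _ fun ω c o => (-1) ^ cnt _ fun x y =>
        Y.nn (p ω) o (xor x c.1) (xor y c.2)).trans_le (le fun c => (h1 c).gR),
      fun U χ h0 h3 h4 => (ge fun c => (h1 c).sf U χ h0 h3 h4).trans_eq
        (mix_sum s K _ fun ω c o => (-1) ^ cnt _ fun x y =>
          Y.nn (p ω) o (xor x c.1) (xor y c.2)).symm⟩, fun x y => ?_⟩
  · rw [Fintype.sum_prod_type]
    simp only [← mul_sum, (h1 _).one, mul_one, s1]
  · have e := mix_sum (μ := μ) s K (fun _ => 1) fun ω c o =>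
      (Y.nn (p ω) o (xor x c.1) (xor y c.2) : ℝ)
    simp only [one_mul] at e
    exact e.trans_le (s2 x y)

end

end Pool.Agent.P.MP_92d394_lc.Y
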