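import Pool.Agent.P.MP_92d394_lc.Y.Inv

/-! Cycle cut points: the recursion step. -/

set_option linter.unusedSectionVars false

namespace Pool.Agent.P.MP_92d394_lc.Y

open Finset

noncomputable section

variable {V : Type} [Fintype V] [DecidableEq V]

/-- The edges `H` that leave `S` can be completed inside `S` at cost `x / 2`. -/
def Val (c : V → V → ℝ) (S : Finset V) (H : V → V → ℕ) (x : ℝ) : Prop :=
  ∃ G : V → V → ℕ, (∀ u v, G u v = G v u) ∧ (∀ u v, G u v ≠ 0 → u ∈ S ∧ v ∈ S ∧ u ≠ v) ∧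
    (∀ u ∈ S, Even (∑ v, G u v + ∑ v, H u v)) ∧
    (∀ T ⊆ S, T.Nonempty → T ≠ S → ∃ u ∈ T, ∃ v ∉ T, G u v ≠ 0) ∧ cs c G ≤ x

variable {c y : V → V → ℝ} {L R S : Finset V}

theorem Val.mono {H : V → V → ℕ} {x x' : ℝ} (h : Val c S H x) (e : x ≤ x') : Val c S H x' :=
  h.imp fun _ h => ⟨h.1, h.2.1, h.2.2.1, h.2.2.2.1, h.2.2.2.2.trans e⟩

theorem Val.join {H B Z : V → V → ℕ} {x₁ x₂ : ℝ} (d : Disjoint L R)
    (sy : ∀ u v, (B + (Z + Z)) u v = (B + (Z + Z)) v u)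
    (su : ∀ u v, (B + (Z + Z)) u v ≠ 0 → u ∈ L ∧ v ∈ R ∨ u ∈ R ∧ v ∈ L)
    (ex : ∃ u ∈ L, ∃ v ∈ R, (B + (Z + Z)) u v ≠ 0) (h₁ : Val c L (H + B) x₁)
    (h₂ : Val c R (H + B) x₂) : Val c (L ∪ R) H (x₁ + x₂ + (cs c B + 2 * cs c Z)) := by
  obtain ⟨G₁, a1, a2, a3, a4, a5⟩ := h₁
  obtain ⟨G₂, b1, b2, b3, b4, b5⟩ := h₂
  have dl : ∀ u ∈ L, u ∉ R := fun u h => disjoint_left.1 d h
  refine ⟨G₁ + G₂ + (B + (Z + Z)), fun u v => ?_, fun u v h => ?_, fun u hu => ?_,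
    fun T hT h1 h2 => ?_, by simp only [cs_add]; linarith⟩
  · rw [Pi.add_apply, Pi.add_apply, Pi.add_apply, Pi.add_apply, sy, a1, b1]
    rfl
  · have := a2 u v
    have := b2 u v
    have := su u v
    have := dl u
    simp only [Pi.add_apply, mem_union] at *
    grind
  · simp only [Pi.add_apply, sum_add_distrib] at a3 b3 ⊢
    rcases mem_union.1 hu with hu | hu
    · have e : ∑ v, G₂ u v = 0 := sum_eq_zero fun v _ => by_contra fun k => dl u hu (b2 u v k).1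
      have := a3 u hu
      grind
    · have e : ∑ v, G₁ u v = 0 := sum_eq_zero fun v _ => by_contra fun k => dl u (a2 u v k).1 hu
      have := b3 u hu
      grind
  · by_cases k1 : (T ∩ L).Nonempty ∧ T ∩ L ≠ L
    · obtain ⟨u, hu, v, hv, k⟩ := a4 _ inter_subset_right k1.1 k1.2
      exact ⟨u, (mem_inter.1 hu).1, v, fun e => hv (mem_inter.2 ⟨e, (a2 u v k).2.1⟩), by
        simp [k]⟩
    by_cases k2 : (T ∩ R).Nonempty ∧ T ∩ R ≠ R
    · obtain ⟨u, hu, v, hv, k⟩ := b4 _ inter_subset_right k2.1 k2.2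
      exact ⟨u, (mem_inter.1 hu).1, v, fun e => hv (mem_inter.2 ⟨e, (b2 u v k).2.1⟩), by
        simp [k]⟩
    obtain ⟨u, hu, v, hv, k⟩ := ex
    have e : T = T ∩ L ∪ T ∩ R := by rw [← inter_union_distrib_left, inter_eq_left.2 hT]
    rw [not_and_or, not_nonempty_iff_eq_empty, not_not] at k1 k2
    rcases k1 with k1 | k1 <;> rcases k2 with k2 | k2 <;> rw [k1, k2] at e
    · simp [e] at h1
    · refine ⟨v, by simp [e, hv], u, by simpa [e] using dl u hu, fun z => k ?_⟩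
      rw [sy]
      exact Nat.eq_zero_of_add_eq_zero_left z
    · exact ⟨u, by simp [e, hu], v, by simpa [e] using fun z => dl v z hv,
        fun z => k (Nat.eq_zero_of_add_eq_zero_left z)⟩
    · exact absurd e h2

/-- The claim of the recursion. -/
def Good (c y : V → V → ℝ) (S : Finset V) (D : Finset (V × V)) : Prop :=
  ∀ (Ω : Type) [Fintype Ω] (μ : Ω → ℝ) (H : Ω → V → V → ℕ), Inv y S μ H →
    ∑ ω, μ ω * (-1) ^ hs (H ω) D ≤ -1 / 7 → ∃ x : Ω → ℝ, (∀ ω, Val c S (H ω) (x ω)) ∧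
      ∑ ω, μ ω * x ω ≤ 10 / 7 * ys (fun u v => c u v * y u v) (S ×ˢ S)

theorem ys_swap (hy : ∀ u v, y u v = y v u) (A B : Finset V) : ys y (A ×ˢ B) = ys y (B ×ˢ A) := by
  simp only [ys, sum_product]
  rw [sum_comm]
  exact sum_congr rfl fun u _ => sum_congr rfl fun v _ => hy _ _

theorem ys_right {A : Finset V} (d : Disjoint L R) :
    ys y (A ×ˢ (L ∪ R)) = ys y (A ×ˢ L) + ys y (A ×ˢ R) := by
  simp only [ys, sum_product, sum_union d, sum_add_distrib]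

theorem ys_left {A : Finset V} (d : Disjoint L R) :
    ys y ((L ∪ R) ×ˢ A) = ys y (L ×ˢ A) + ys y (R ×ˢ A) := by
  simp only [ys, sum_product, sum_union d]

theorem ys_compl (d : Disjoint L R) :
    ys y (L ×ˢ Lᶜ) = ys y (L ×ˢ R) + ys y (L ×ˢ (L ∪ R)ᶜ) := by
  rw [← ys_right (disjoint_left.2 fun a h => by simp [h])]
  congr 2
  ext v
  have : v ∈ L → v ∉ R := fun h => disjoint_left.1 d h
  simp only [mem_compl, mem_union]
  tauto

theorem masses (hy : ∀ u v, y u v = y v u) (d : Disjoint L R) (h1 : ys y (L ×ˢ Lᶜ) = 2)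
    (h2 : ys y (R ×ˢ Rᶜ) = 2) (h3 : ys y ((L ∪ R) ×ˢ (L ∪ R)ᶜ) = 2) :
    ys y (L ×ˢ R) = 1 ∧ ys y (L ×ˢ (L ∪ R)ᶜ) = 1 ∧ ys y (R ×ˢ (L ∪ R)ᶜ) = 1 := by
  rw [ys_compl d] at h1
  rw [ys_compl d.symm, ys_swap hy, union_comm] at h2
  rw [ys_left d] at h3
  exact ⟨by linarith, by linarith, by linarith⟩

/-- The two parts of the edges from `L` to `Z`. -/
def pt (L Z : Finset V) (D : Finset (V × V)) (i : Bool) : Finset (V × V) :=
  (L ×ˢ Z).filter fun e => decide (e ∈ D) = !i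

theorem hs_pt (H : V → V → ℕ) (Z : Finset V) (D : Finset (V × V)) :
    hs H (pt L Z D false) + hs H (pt L Z D true) = hs H (L ×ˢ Z) := by
  simp only [hs, pt, sum_filter, ← sum_add_distrib]
  exact sum_congr rfl fun e _ => by by_cases k : e ∈ D <;> simp [k]

theorem pt_false {D : Finset (V × V)} {X : Finset V} (hD : D ⊆ L ×ˢ Lᶜ) :
    pt L Xᶜ D false = D.filter fun e => e.2 ∉ X := by
  ext e
  have := fun h : e ∈ D => (mem_product.1 (hD h)).1
  simp [pt]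
  tauto

theorem ys_pt (d : Disjoint L R) {D : Finset (V × V)} (hD : D ⊆ L ×ˢ Lᶜ) (h1 : ys y D = 1)
    (h2 : ys y (L ×ˢ R) = 1) (h3 : ys y (L ×ˢ (L ∪ R)ᶜ) = 1) (i : Bool) :
    ys y (pt L (L ∪ R)ᶜ D i) = ∑ e ∈ L ×ˢ R, if decide (e ∈ D) = i then y e.1 e.2 else 0 := by
  have e1 := ys_compl (y := fun u v => if (u, v) ∈ D then y u v else 0) d
  have e2 : ys (fun u v => if (u, v) ∈ D then y u v else 0) (L ×ˢ Lᶜ) = 1 := by
    rw [← h1, ys, ys, sum_ite_mem, inter_eq_right.2 hD]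
  have e3 : ∀ C : Finset (V × V), (∑ e ∈ C, if e ∈ D then y e.1 e.2 else 0) +
      ∑ e ∈ C, (if e ∉ D then y e.1 e.2 else 0) = ys y C := fun C => by
    rw [← sum_add_distrib]
    exact sum_congr rfl fun e _ => by by_cases k : e ∈ D <;> simp [k]
  have e4 := e3 (L ×ˢ R)
  have e5 := e3 (L ×ˢ (L ∪ R)ᶜ)
  rw [e2] at e1
  simp only [ys] at *
  cases i <;> simp only [pt, sum_filter, Bool.not_false, Bool.not_true, decide_eq_true_eq,
    decide_eq_false_iff_not] <;> linarith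

theorem hs_union (H : V → V → ℕ) {C C' : Finset (V × V)} (h : Disjoint C C') :
    hs H (C ∪ C') = hs H C + hs H C' := sum_union h

theorem sg_inj {a b : Bool} (h : sg a = sg b) : a = b := by
  revert h
  cases a <;> cases b <;> simp [sg] <;> norm_num

theorem sg_xor (a b : Bool) : sg (xor a b) = sg a * sg b := by
  cases a <;> cases b <;> simp [sg]

theorem avg {ι : Type} [Fintype ι] {w : ι → ℝ} (h0 : ∀ i, 0 ≤ w i) (h1 : ∑ i, w i = 1)
    (f : ι → ℝ) : ∃ i, f i ≤ ∑ i, w i * f i := by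
  have : Nonempty ι := by
    by_contra k
    rw [not_nonempty_iff] at k
    simp at h1
  obtain ⟨i, -, hi⟩ := exists_min_image univ f univ_nonempty
  exact ⟨i, le_trans (le_of_eq (by rw [← sum_mul, h1, one_mul]))
    (sum_le_sum fun j _ => mul_le_mul_of_nonneg_left (hi j (mem_univ j)) (h0 j))⟩

theorem Inv.dens {Ω : Type} [Fintype Ω] {μ : Ω → ℝ} {H : Ω → V → V → ℕ} (h : Inv y S μ H)
    {C : Finset (V × V)} (hC : C ⊆ S ×ˢ Sᶜ) :
    ∑ ω, μ ω * ib (decide (Odd (hs (H ω) C))) ≤ 10 / 7 * ys y C := by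
  refine (sum_le_sum fun ω _ => mul_le_mul_of_nonneg_left (ib_odd _) (h.nn ω)).trans ?_
  simp only [hs, ys, Nat.cast_sum, mul_sum]
  rw [sum_comm]
  exact sum_le_sum fun e he => h.den e (hC he)

theorem step (hy : ∀ u v, y u v = y v u) (y0 : ∀ u v, 0 ≤ y u v) (hc : ∀ u v, c u v = c v u)
    (c0 : ∀ u v, 0 ≤ c u v) (d : Disjoint L R) (m1 : ys y (L ×ˢ R) = 1)
    (m2 : ys y (L ×ˢ (L ∪ R)ᶜ) = 1) (m3 : ys y (R ×ˢ (L ∪ R)ᶜ) = 1) {D D' : Finset (V × V)}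
    (hD : D ⊆ L ×ˢ Lᶜ) (hD' : D' ⊆ R ×ˢ Rᶜ) (e1 : ys y D = 1) (e2 : ys y D' = 1)
    (g1 : Good c y L D) (g2 : Good c y R D') : Good c y (L ∪ R) (L ×ˢ (L ∪ R)ᶜ) := by
  intro Ω _ μ H h h1
  have s1 : ∀ i, pt L (L ∪ R)ᶜ D i ⊆ (L ∪ R) ×ˢ (L ∪ R)ᶜ := fun i =>
    (filter_subset _ _).trans (product_subset_product_left subset_union_left)
  have s2 : ∀ i, pt R (L ∪ R)ᶜ D' i ⊆ (L ∪ R) ×ˢ (L ∪ R)ᶜ := fun i =>
    (filter_subset _ _).trans (product_subset_product_left subset_union_right)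
  obtain ⟨p, p1⟩ : ∃ p : Ω → Bool, ∀ ω, sg (p ω) = (-1) ^ hs (H ω) (L ×ˢ (L ∪ R)ᶜ) :=
    ⟨_, fun ω => sg_odd _⟩
  have p2 : ∀ ω, sg (p ω) = (-1) ^ hs (H ω) (R ×ˢ (L ∪ R)ᶜ) := fun ω => by
    have e := h.ev ω
    rw [union_product, hs_union _ (disjoint_product.2 (Or.inl d))] at e
    rw [p1]
    rcases (hs (H ω) (R ×ˢ (L ∪ R)ᶜ)).even_or_odd with k | k
    · rw [k.neg_one_pow, ((Nat.even_add.1 e).2 k).neg_one_pow]
    · rw [k.neg_one_pow, ((Nat.even_add'.1 e).2 k).neg_one_pow]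
  have z1 : ∑ e : ↥(L ×ˢ R), y e.1.1 e.1.2 = 1 := by
    rw [← m1, ys, ← sum_coe_sort (L ×ˢ R)]
  set cl : ↥(L ×ˢ R) → Bool × Bool := fun e => (!decide (e.1 ∈ D), !decide (e.1.swap ∈ D'))
    with hcl
  obtain ⟨ψ, ψ0, ψ1, ψ2⟩ := exists_psi (fun e : ↥(L ×ˢ R) => y e.1.1 e.1.2) (fun e => y0 _ _) z1 cl
  set b : Bool × Bool → ℝ := fun x => ∑ e, if cl e = x then y e.1.1 e.1.2 else 0 with hb
  have b0 : ∀ x, 0 ≤ b x := fun x => sum_nonneg fun e _ => by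
    split_ifs
    exacts [y0 _ _, le_rfl]
  have b1 : ∑ x, b x = 1 := by
    rw [sum_comm, ← z1]
    simp
  have hy1 : Hy μ p (fun i ω => decide (Odd (hs (H ω) (pt L (L ∪ R)ᶜ D i))))
      (fun i ω => decide (Odd (hs (H ω) (pt R (L ∪ R)ᶜ D' i)))) fun x y => 10 / 7 * b (x, y) := by
    refine ⟨h.nn, h.one, fun ω => sg_inj ?_, fun ω => sg_inj ?_, by simpa only [p1] using h1,
      fun i j => ?_, fun x y => mul_nonneg (by norm_num) (b0 _),
      fun i j => (h.dens (s1 i)).trans_eq ?_, fun i j => (h.dens (s2 j)).trans_eq ?_, ?_⟩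
    · rw [sg_xor, sg_odd, sg_odd, ← pow_add, hs_pt, p1]
    · rw [sg_xor, sg_odd, sg_odd, ← pow_add, hs_pt, p2]
    · have e := h.i2 _ (union_subset (s1 i) (s2 j))
      have k : Disjoint (pt L (L ∪ R)ᶜ D i) (pt R (L ∪ R)ᶜ D' j) :=
        disjoint_filter_filter (disjoint_product.2 (Or.inl d))
      simpa only [sg_odd, hs_union _ k, pow_add] using e
    · rw [ys_pt d hD e1 m1 m2, ← mul_add, ← sum_coe_sort (L ×ˢ R), hb, ← sum_add_distrib]
      congr 1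
      refine sum_congr rfl fun e _ => ?_
      simp only [hcl]
      cases i <;> cases j <;> cases decide (e.1 ∈ D) <;> cases decide (e.1.swap ∈ D') <;> simp
    · have q := ys_pt d.symm hD' e2 (by rwa [ys_swap hy]) (by rwa [union_comm]) j
      rw [union_comm] at q
      rw [q, ← mul_add, hb, ← sum_add_distrib, sum_product, sum_comm, ← sum_product',
        ← sum_coe_sort (L ×ˢ R)]
      clear q
      congr 1
      refine sum_congr rfl fun e _ => ?_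
      simp only [hcl, hy e.1.2, show (e.1.2, e.1.1) = e.1.swap from rfl]
      cases i <;> cases j <;> cases decide (e.1 ∈ D) <;> cases decide (e.1.swap ∈ D') <;> simp
    · simp only [Fintype.sum_prod_type, Fintype.sum_bool] at b1
      linarith
  obtain ⟨K, n, k, us⟩ := hy1.step
  set w : (Bool × Bool → ↥(L ×ˢ R)) → ℝ := fun θ => ∏ x, ψ x (θ x) with hw
  have w0 : ∀ θ, 0 ≤ w θ := fun θ => prod_nonneg fun x _ => ψ0 _ _
  have w1 : ∑ θ, w θ = 1 := by simpa only [mul_one, ψ1] using sum_fac ψ ψ1 (false, false) fun _ => 1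
  have fac : ∀ g : V × V → ℝ, ∑ s, μ' w μ K s * ∑ x : Bool × Bool,
      n s.2.1 s.2.2 x.1 x.2 * g (s.1 x) =
        ∑ x, (∑ e, ψ x e * g e) * ∑ ω, μ ω * ∑ γ, K ω γ * n ω γ x.1 x.2 := fun g => by
    simp only [mul_sum (s := (univ : Finset (Bool × Bool)))]
    rw [sum_comm]
    refine sum_congr rfl fun x _ => ?_
    rw [sum_μ', ← sum_fac ψ ψ1 x fun e => g e, sum_mul]
    refine sum_congr rfl fun θ _ => ?_
    simp only [← mul_assoc, ← sum_mul]
    simp only [mul_assoc, hw]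
    rw [mul_comm (g _)]
  have dn : ∀ e ∈ L ×ˢ R, ∑ s, μ' w μ K s * Bn (fun x => (s.1 x).1) (n s.2.1 s.2.2) e.1 e.2 ≤
      10 / 7 * y e.1 e.2 := fun e he => by
    have q : ∀ e' : ↥(L ×ˢ R), (en e' e.1 e.2 : ℝ) = if e' = ⟨e, he⟩ then 1 else 0 := fun e' => by
      have : e'.1 ≠ (e.2, e.1) := fun z => disjoint_left.1 d (mem_product.1 e'.2).1
        (by simpa [z] using (mem_product.1 he).2)
      simp [en, this, Subtype.ext_iff]
    have := fac fun e' => en e' e.1 e.2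
    simp only [Bn, Nat.cast_sum, Nat.cast_mul]
    rw [this]
    refine (sum_le_sum fun x _ => mul_le_mul_of_nonneg_left (us x.1 x.2)
      (sum_nonneg fun e' _ => mul_nonneg (ψ0 _ _) (Nat.cast_nonneg _))).trans_eq ?_
    simp only [q, mul_ite, mul_one, mul_zero, sum_ite_eq', mem_univ, if_true]
    rw [sum_congr rfl fun x _ => show ψ x ⟨e, he⟩ * (10 / 7 * b (x.1, x.2)) =
      10 / 7 * (if cl ⟨e, he⟩ = x then y e.1 e.2 else 0) by rw [← ψ2]; ring, ← mul_sum]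
    simp
  have cel : ∀ s x, μ' w μ K s ≠ 0 → n s.2.1 s.2.2 x.1 x.2 ≠ 0 → cl (s.1 x) = x := by
    rintro ⟨θ, ω, γ⟩ x a1 a2
    have a3 : ψ x (θ x) ≠ 0 := prod_ne_zero_iff.1 (left_ne_zero_of_mul a1) x (mem_univ x)
    by_contra a4
    have a5 := ψ2 x (θ x)
    rw [if_neg a4, mul_eq_zero_iff_right a3] at a5
    have a6 := us x.1 x.2
    rw [show b (x.1, x.2) = 0 from a5, mul_zero] at a6
    have a7 : ∀ ω γ, 0 ≤ K ω γ * n ω γ x.1 x.2 := fun ω γ =>
      mul_nonneg (k.nn _ _) (Nat.cast_nonneg _)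
    have a8 := (mul_le_mul_of_nonneg_left (single_le_sum (fun γ _ => a7 ω γ) (mem_univ γ))
      (h.nn ω)).trans ((single_le_sum (fun ω _ => mul_nonneg (h.nn ω)
        (sum_nonneg fun γ _ => a7 ω γ)) (mem_univ ω)).trans a6)
    refine right_ne_zero_of_mul a1 (mul_right_cancel₀ (Nat.cast_ne_zero.2 a2 : (_ : ℝ) ≠ 0) ?_)
    rw [zero_mul, mul_assoc]
    exact le_antisymm a8 (mul_nonneg (h.nn ω) (a7 ω γ))
  have r1 : ∀ (θ : Bool × Bool → ↥(L ×ˢ R)) x, (θ x).1 ∈ L ×ˢ R := fun θ x => (θ x).2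
  have r2 : ∀ (θ : Bool × Bool → ↥(L ×ˢ R)) x, (θ x).1.swap ∈ R ×ˢ L := fun θ x =>
    mem_product.2 (mem_product.1 (θ x).2).symm
  have eB : ∀ θ : Bool × Bool → ↥(L ×ˢ R), Bn (fun x => (θ x).1.swap) = Bn fun x => (θ x).1 :=
    fun θ => Bn_swap fun x => (θ x).1
  have eH : H' H (fun (θ : Bool × Bool → ↥(L ×ˢ R)) x => (θ x).1.swap) n =
      H' H (fun θ x => (θ x).1) n := funext fun s => by simp only [H', eB]
  have h' : Inv y (R ∪ L) μ H := by rwa [union_comm]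
  obtain ⟨x₁, v₁, t₁⟩ := g1 _ _ _ (h.child d k p1 p2 w0 w1 r1 dn)
    ((h.good d w1 r1 hD (U := fun x _ => !x) (fun ω => by rw [sg_odd, pt_false hD])
      fun s x y a1 a2 => by
        have := congrArg Prod.fst (cel s (x, y) a1 a2)
        simpa [hcl] using congrArg (!·) this).trans_le k.gL)
  obtain ⟨x₂, v₂, t₂⟩ := g2 _ _ _ (h'.child d.symm k (by simpa only [union_comm R] using p2)
      (by simpa only [union_comm R] using p1) w0 w1 r2 fun e he => by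
        simpa only [eB, Prod.fst_swap, Prod.snd_swap, Bn_symm _ _ e.2, hy e.2] using
          dn e.swap (mem_product.2 (mem_product.1 he).symm))
    ((h'.good d.symm w1 r2 hD' (U := fun _ y => !y)
      (fun ω => by rw [sg_odd, pt_false hD', union_comm]) fun s x y a1 a2 => by
        have := congrArg Prod.snd (cel s (x, y) a1 a2)
        simpa [hcl] using congrArg (!·) this).trans_le k.gR)
  rw [eH] at v₂
  obtain ⟨e₀, he₀, mn⟩ := exists_min_image (L ×ˢ R) (fun e => c e.1 e.2) (by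
    rw [nonempty_iff_ne_empty]
    intro z
    simp [z, ys] at m1)
  set f : (Bool × Bool → ↥(L ×ˢ R)) × Ω × (Bool × Bool) × Fin 5 → ℝ := fun s => x₁ s + x₂ s +
    (cs c (Bn (fun x => (s.1 x).1) (n s.2.1 s.2.2)) +
      2 * cs c (if tot (n s.2.1 s.2.2) = 0 then en e₀ else 0)) with hf
  have vf : ∀ s, Val c (L ∪ R) (H s.2.1) (f s) := fun s => by
    refine Val.join d (fun u v => ?_) (fun u v z => ?_) ?_ (v₁ s) (v₂ s)
    · split_ifs <;> simp [Bn_symm _ _ u v, en_symm _ u v]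
    · obtain ⟨e, he, q⟩ : ∃ e ∈ L ×ˢ R, e = (u, v) ∨ e = (v, u) := by
        by_cases q : Bn (fun x => (s.1 x).1) (n s.2.1 s.2.2) u v = 0
        · refine ⟨e₀, he₀, en_ne fun q' => z ?_⟩
          split_ifs <;> simp [q, q']
        · obtain ⟨x, q⟩ := Bn_ne q
          exact ⟨_, r1 _ x, q⟩
      rcases q with rfl | rfl
      exacts [Or.inl (mem_product.1 he), Or.inr (mem_product.1 he).symm]
    · split_ifs with q
      · exact ⟨_, (mem_product.1 he₀).1, _, (mem_product.1 he₀).2, by simp [en]⟩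
      · obtain ⟨x, q⟩ : ∃ x : Bool × Bool, n s.2.1 s.2.2 x.1 x.2 ≠ 0 := by
          by_contra z
          push Not at z
          simp [tot, z (false, false), z (false, true), z (true, false), z (true, true)] at q
        refine ⟨_, (mem_product.1 (r1 s.1 x)).1, _, (mem_product.1 (r1 s.1 x)).2, fun z => q ?_⟩
        simpa [en] using sum_eq_zero_iff.1 (Nat.eq_zero_of_add_eq_zero_right z) x (mem_univ x)
  refine ⟨fun ω => ∑ θ, w θ * ∑ γ, K ω γ * f (θ, ω, γ), fun ω => ?_, ?_⟩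
  · obtain ⟨θ, a1⟩ := avg w0 w1 fun θ => ∑ γ, K ω γ * f (θ, ω, γ)
    obtain ⟨γ, a2⟩ := avg (k.nn ω) (k.one ω) fun γ => f (θ, ω, γ)
    exact (vf (θ, ω, γ)).mono (a2.trans a1)
  have a1 : ∑ ω, μ ω * ∑ θ, w θ * ∑ γ, K ω γ * f (θ, ω, γ) = ∑ s, μ' w μ K s * f s := by
    rw [sum_μ']
    simp only [mul_sum (s := (univ : Finset (Bool × Bool → ↥(L ×ˢ R)))),
      mul_sum (s := (univ : Finset Ω))]
    rw [sum_comm]
    exact sum_congr rfl fun θ _ => sum_congr rfl fun ω _ => mul_left_comm _ _ _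
  have a2 := fac fun e => 2 * (c e.1 e.2 - c e₀.1 e₀.2)
  have a3 := k.cost h.one hy1.hp
  have a4 : ∑ s, μ' w μ K s * f s = ∑ s, μ' w μ K s * x₁ s + ∑ s, μ' w μ K s * x₂ s +
      ∑ s, μ' w μ K s * ∑ x : Bool × Bool, n s.2.1 s.2.2 x.1 x.2 *
        (2 * (c (s.1 x).1.1 (s.1 x).1.2 - c e₀.1 e₀.2)) + 2 * c e₀.1 e₀.2 *
      ∑ ω, μ ω * ∑ γ, K ω γ * (tot (n ω γ) + if tot (n ω γ) = 0 then 2 else 0) := by
    rw [← one_mul (∑ ω, μ ω * _), ← w1, sum_mul, ← sum_μ' w μ K fun s =>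
      tot (n s.2.1 s.2.2) + if tot (n s.2.1 s.2.2) = 0 then 2 else 0, mul_sum]
    simp only [← sum_add_distrib]
    refine sum_congr rfl fun s _ => ?_
    have q : cs c (if tot (n s.2.1 s.2.2) = 0 then en e₀ else 0) =
        c e₀.1 e₀.2 * if tot (n s.2.1 s.2.2) = 0 then 2 else 0 := by
      split_ifs
      · rw [cs_en hc, mul_comm]
      · simp [cs]
    simp only [hf, q, cs_Bn hc, Fintype.sum_prod_type, Fintype.sum_bool]
    generalize (if tot (n s.2.1 s.2.2) = 0 then (2 : ℝ) else 0) = t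
    simp only [tot]
    push_cast
    ring
  have a5 : ∑ x, (∑ e, ψ x e * (2 * (c e.1.1 e.1.2 - c e₀.1 e₀.2))) *
      ∑ ω, μ ω * ∑ γ, K ω γ * n ω γ x.1 x.2 ≤
      10 / 7 * (2 * ys (fun u v => c u v * y u v) (L ×ˢ R) - 2 * c e₀.1 e₀.2) := by
    refine (sum_le_sum fun x _ => mul_le_mul_of_nonneg_left (us x.1 x.2) (sum_nonneg fun e _ =>
      mul_nonneg (ψ0 _ _) (mul_nonneg zero_le_two (sub_nonneg.2 (mn _ e.2))))).trans_eq ?_
    rw [← mul_one (2 * c e₀.1 e₀.2), ← z1, ys, ← sum_coe_sort (L ×ˢ R), mul_sum, mul_sum,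
      ← sum_sub_distrib, mul_sum]
    simp only [sum_mul]
    rw [sum_comm]
    refine sum_congr rfl fun e _ => ?_
    rw [sum_congr rfl fun x _ => show ψ x e * (2 * (c e.1.1 e.1.2 - c e₀.1 e₀.2)) *
      (10 / 7 * b (x.1, x.2)) = (if cl e = x then y e.1.1 e.1.2 else 0) *
        (10 / 7 * (2 * (c e.1.1 e.1.2 - c e₀.1 e₀.2))) by rw [← ψ2]; ring, ← sum_mul]
    simp
    ring
  rw [a1, a4, a2, ys_left d, ys_right d, ys_right d,
    ys_swap (fun u v => by rw [hc, hy]) R L]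
  linarith [mul_le_mul_of_nonneg_left a3 (c0 e₀.1 e₀.2)]

end

end Pool.Agent.P.MP_92d394_lc.Y
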