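import Pool.Agent.P.MP_92d394_lc.Y.V23

/-! Cycle cut points: one step when the opposite cell is not used, and the general case. -/

namespace Pool.Agent.P.MP_92d394_lc.Y

noncomputable section

/-- A function of the state given by its table. -/
def tb (x₀ x₁ x₂ x₃ x₄ x₅ x₆ x₇ : ℝ) : B3 := fun p a b =>
  if p then (if a then (if b then x₇ else x₆) else if b then x₅ else x₄)
  else if a then (if b then x₃ else x₂) else if b then x₁ else x₀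

variable {W₀ L₀ R₀ V₀ W₁ L₁ R₁ V₁ : ℝ}

theorem ab1 {a q : ℝ} (ha : 0 ≤ a) (h0 : 0 ≤ q) (h1 : q ≤ 1) : a * |1 - 2 * q| ≤ a :=
  mul_le_of_le_one_right ha (abs_le.2 ⟨by linarith, by linarith⟩)

theorem ab2 {a q x : ℝ} (ha : 0 ≤ a) (h : a * q = x) : a * |1 - 2 * q| = |a - 2 * x| := by
  rw [mul_abs ha, ← h]; congr 1; ring

theorem Sf_tb {q₀ q₁ q₂ q₃ q₄ q₅ q₆ q₇ : ℝ}
    (h : W₀ * |1 - 2 * q₀| + L₀ * |1 - 2 * q₁| + R₀ * |1 - 2 * q₂| + V₀ * |1 - 2 * q₃| +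
      W₁ * |1 - 2 * q₄| + L₁ * |1 - 2 * q₅| + R₁ * |1 - 2 * q₆| + V₁ * |1 - 2 * q₇| ≤ 5 / 7) :
    Sf (tb W₀ L₀ R₀ V₀ W₁ L₁ R₁ V₁) (tb q₀ q₁ q₂ q₃ q₄ q₅ q₆ q₇) :=
  ⟨0, 0, le_rfl, le_rfl, by simpa [E, tb] using h⟩

/-- Kernels without the outcome `z`. -/
theorem ach_fh {f₀ f₁ f₄ f₅ f₇ h₀ h₂ h₄ h₆ h₇ d nL nR k₁ k₂ : ℝ}
    (n : 0 ≤ f₀ ∧ 0 ≤ f₁ ∧ 0 ≤ f₄ ∧ 0 ≤ f₅ ∧ 0 ≤ f₇ ∧ 0 ≤ h₀ ∧ 0 ≤ h₂ ∧ 0 ≤ h₄ ∧ 0 ≤ h₆ ∧ 0 ≤ h₇ ∧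
      0 ≤ d)
    (o : f₀ + h₀ + d ≤ 1 ∧ f₁ ≤ 1 ∧ h₂ ≤ 1 ∧ f₄ + h₄ ≤ 1 ∧ f₅ ≤ 1 ∧ h₆ ≤ 1 ∧ f₇ + h₇ ≤ 1)
    (e1 : nL ≤ W₀ * (f₀ + d) + L₀ * f₁ + W₁ * f₄ + L₁ * f₅ - V₁ * f₇)
    (e2 : nR ≤ W₀ * (h₀ + d) + R₀ * h₂ + W₁ * h₄ + R₁ * h₆ - V₁ * h₇)
    (e3 : W₀ * (f₀ + d) + L₀ * f₁ + W₁ * f₄ + L₁ * f₅ + V₁ * f₇ ≤ k₁)
    (e4 : W₀ * (h₀ + d) + R₀ * h₂ + W₁ * h₄ + R₁ * h₆ + V₁ * h₇ ≤ k₂)
    (s1 : Sf (tb W₀ L₀ R₀ V₀ W₁ L₁ R₁ V₁) (tb (f₀ + d) f₁ 0 0 f₄ f₅ 0 f₇))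
    (s2 : Sf (tb W₀ L₀ R₀ V₀ W₁ L₁ R₁ V₁) (tb (h₀ + d) 0 h₂ 0 h₄ 0 h₆ h₇))
    (s3 : Sf (tb W₀ L₀ R₀ V₀ W₁ L₁ R₁ V₁) (tb (f₀ + h₀) f₁ h₂ 0 (f₄ + h₄) f₅ h₆ (f₇ + h₇))) :
    Ach (tb W₀ L₀ R₀ V₀ W₁ L₁ R₁ V₁) nL nR k₁ k₂ 0 := by
  refine ⟨tb f₀ f₁ 0 0 f₄ f₅ 0 f₇, tb h₀ 0 h₂ 0 h₄ 0 h₆ h₇, fun _ _ _ => 0, tb d 0 0 0 0 0 0 0,
    fun p a b => ?_, fun a b => ?_, ?_, ?_, ?_, ?_, by simp [E], fun u v w => ?_⟩
  · cases p <;> cases a <;> cases b <;> simp [tb, n, o]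
  · cases a <;> cases b <;> simp [tb]
  iterate 4
    simp only [E, tb, sg, if_true, if_false, Bool.false_eq_true]
    linarith
  cases u <;> cases v
  · convert Sf_zero using 1
    funext p a b; simp [qU, ib]
  · convert s2 using 1
    funext p a b; cases p <;> cases a <;> cases b <;> simp [qU, ib, tb]
  · convert s1 using 1
    funext p a b; cases p <;> cases a <;> cases b <;> simp [qU, ib, tb]
  · convert s3 using 1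
    funext p a b; cases p <;> cases a <;> cases b <;> simp [qU, ib, tb]

theorem Pm.tb (h : Pm (tb W₀ L₀ R₀ V₀ W₁ L₁ R₁ V₁)) :
    0 ≤ W₀ ∧ 0 ≤ L₀ ∧ 0 ≤ R₀ ∧ 0 ≤ V₀ ∧ 0 ≤ W₁ ∧ 0 ≤ L₁ ∧ 0 ≤ R₁ ∧ 0 ≤ V₁ ∧
      W₀ + L₀ + R₀ + V₀ + W₁ + L₁ + R₁ + V₁ = 1 :=
  ⟨h.nn false false false, h.nn false false true, h.nn false true false, h.nn false true true,
    h.nn true false false, h.nn true false true, h.nn true true false, h.nn true true true,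
    by simpa [E, Y.tb] using h.one⟩

theorem v1_big (hm : Pm (tb W₀ L₀ R₀ V₀ W₁ L₁ R₁ V₁)) (h1 : W₁ + V₁ + L₀ + R₀ ≤ 6 / 7)
    (h2 : 5 / 7 ≤ W₁) : Ach (tb W₀ L₀ R₀ V₀ W₁ L₁ R₁ V₁) (W₀ + W₁ + (L₀ + L₁) - 3 / 7)
      (W₀ + W₁ + (R₀ + R₁) - 3 / 7) (W₁ + L₁ + R₀ + V₀) (W₁ + R₁ + L₀ + V₀) 0 := by
  obtain ⟨a0, a1, a2, a3, a4, a5, a6, a7, e⟩ := hm.tb
  have k := mul_div_eq (x := (W₁ + L₀ - R₀) / 2) (M := W₁) (by linarith) (by linarith)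
  have k0 : 0 ≤ (W₁ + L₀ - R₀) / 2 / W₁ := div_nonneg (by linarith) a4
  have k1 : (W₁ + L₀ - R₀) / 2 / W₁ ≤ 1 := div_le_one_of_le₀ (by linarith) a4
  generalize (W₁ + L₀ - R₀) / 2 / W₁ = q at *
  have k2 := ab2 a4 k
  have k3 := ab2 (q := 1 - q) (x := (W₁ - L₀ + R₀) / 2) a4 (by linarith)
  have k4 : |W₁ - 2 * ((W₁ + L₀ - R₀) / 2)| ≤ L₀ + R₀ := abs_le.2 ⟨by linarith, by linarith⟩
  have k5 : |W₁ - 2 * ((W₁ - L₀ + R₀) / 2)| ≤ L₀ + R₀ := abs_le.2 ⟨by linarith, by linarith⟩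
  refine ach_fh (f₀ := 0) (f₁ := 0) (f₄ := q) (f₅ := 1) (f₇ := 1 / 2) (h₀ := 0) (h₂ := 0)
    (h₄ := 1 - q) (h₆ := 1) (h₇ := 1 / 2) (d := 1) (by norm_num; exact ⟨k0, k1⟩) (by norm_num)
    (by linarith) (by linarith) (by linarith) (by linarith) (Sf_tb ?_) (Sf_tb ?_)
    ⟨0, 1, le_rfl, zero_le_one, ?_⟩
  · rw [k2]; norm_num; linarith
  · rw [k3]; norm_num; linarith
  · simp only [E, tb, sg, if_true, if_false, Bool.false_eq_true]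
    norm_num

theorem v1_mid (hm : Pm (tb W₀ L₀ R₀ V₀ W₁ L₁ R₁ V₁)) {nL nR : ℝ}
    (eL : nL = W₀ + W₁ + (L₀ + L₁) - 3 / 7) (eR : nR = W₀ + W₁ + (R₀ + R₁) - 3 / 7)
    (hL : 1 / 7 ≤ nL) (hR : 1 / 7 ≤ nR) (h1 : 2 / 7 ≤ W₁) (h2 : W₁ ≤ 5 / 7) :
    Ach (tb W₀ L₀ R₀ V₀ W₁ L₁ R₁ V₁) nL nR nL nR 0 := by
  obtain ⟨a0, a1, a2, a3, a4, a5, a6, a7, e⟩ := hm.tb
  obtain ⟨x, x1, x2, x3, x4, x5, x6⟩ : ∃ x, x ≤ W₁ / 2 - 1 / 14 ∧ x ≤ nL ∧ x ≤ nR ∧ 1 / 14 ≤ x ∧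
      W₁ - 3 / 7 ≤ x ∧ W₁ / 2 - 1 / 7 ≤ x :=
    ⟨min (W₁ / 2 - 1 / 14) (min nL nR), min_le_left _ _, (min_le_right _ _).trans (min_le_left _ _),
      (min_le_right _ _).trans (min_le_right _ _),
      le_min (by linarith) (le_min (by linarith) (by linarith)),
      le_min (by linarith) (le_min (by linarith) (by linarith)),
      le_min (by linarith) (le_min (by linarith) (by linarith))⟩
  have k : ∀ {x M : ℝ}, 0 ≤ x → x ≤ M → ∃ q, 0 ≤ q ∧ q ≤ 1 ∧ M * q = x := fun p q =>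
    ⟨_, div_nonneg p (p.trans q), div_le_one_of_le₀ q (p.trans q), mul_div_eq p q⟩
  obtain ⟨q, q0, -, q2⟩ := k (x := 2 * x) (M := W₁) (by linarith) (by linarith)
  have q1 : q ≤ 1 := by nlinarith
  obtain ⟨f, f0, f1, f2⟩ := k (x := nL - x) (M := W₀ + L₀ + L₁) (by linarith) (by linarith)
  obtain ⟨h, h0, h1, h2⟩ := k (x := nR - x) (M := W₀ + R₀ + R₁) (by linarith) (by linarith)
  have d1 := min_le_left f h
  have d2 := min_le_right f h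
  have d0 := le_min f0 h0
  have d3 : f + h - min f h ≤ 1 := by rcases min_choice f h with c | c <;> rw [c] <;> linarith
  generalize min f h = d at *
  have k1 := ab2 (q := q / 2) (x := x) a4 (by linarith)
  have k2 := ab2 (q := q / 2 + q / 2) (x := 2 * x) a4 (by linarith)
  have k3 := ab2 (by linarith) f2
  have k4 := ab2 (by linarith) h2
  refine ach_fh (f₀ := f - d) (f₁ := f) (f₄ := q / 2) (f₅ := f) (f₇ := 0) (h₀ := h - d) (h₂ := h)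
    (h₄ := q / 2) (h₆ := h) (h₇ := 0) (d := d)
    (by refine ⟨?_, ?_, ?_, ?_, ?_, ?_, ?_, ?_, ?_, ?_, ?_⟩ <;> linarith)
    (by refine ⟨?_, ?_, ?_, ?_, ?_, ?_, ?_⟩ <;> linarith)
    (by linarith) (by linarith) (by linarith) (by linarith) (Sf_tb ?_) (Sf_tb ?_) (Sf_tb ?_)
  · rw [k1, sub_add_cancel, abs_of_nonneg (by linarith : 0 ≤ W₁ - 2 * x)]
    norm_num
    rcases abs_cases (W₀ + L₀ + L₁ - 2 * (nL - x)) with c | c <;> linarith [c.1]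
  · rw [k1, sub_add_cancel, abs_of_nonneg (by linarith : 0 ≤ W₁ - 2 * x)]
    norm_num
    rcases abs_cases (W₀ + R₀ + R₁ - 2 * (nR - x)) with c | c <;> linarith [c.1]
  · rw [k2]
    have b0 := ab1 (q := f - d + (h - d)) a0 (by linarith) (by linarith)
    have b1 := ab1 a1 f0 f1
    have b2 := ab1 a2 h0 h1
    have b5 := ab1 a5 f0 f1
    have b6 := ab1 a6 h0 h1
    norm_num
    rcases abs_cases (W₁ - 2 * (2 * x)) with c | c <;> linarith [c.1]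

theorem v1_low (hm : Pm (tb W₀ L₀ R₀ V₀ W₁ L₁ R₁ V₁)) {nL nR : ℝ}
    (eL : nL = W₀ + W₁ + (L₀ + L₁) - 3 / 7) (eR : nR = W₀ + W₁ + (R₀ + R₁) - 3 / 7)
    (hL : 1 / 7 ≤ nL) (hR : 1 / 7 ≤ nR) (hp : 4 / 7 ≤ W₁ + L₁ + R₁ + V₁) (h1 : W₁ ≤ 2 / 7) :
    Ach (tb W₀ L₀ R₀ V₀ W₁ L₁ R₁ V₁) nL nR nL nR 0 := by
  obtain ⟨a0, a1, a2, a3, a4, a5, a6, a7, e⟩ := hm.tb
  have k : ∀ {n : ℝ}, 1 / 7 ≤ n → n ≤ 4 / 7 → ∃ q, 1 / 4 ≤ q ∧ q ≤ 4 / 7 ∧ (n + 3 / 7) * q = n :=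
    fun {n} p q => ⟨n / (n + 3 / 7), by rw [le_div_iff₀ (by linarith)]; linarith,
      by rw [div_le_iff₀ (by linarith)]; linarith, mul_div_eq (by linarith) (by linarith)⟩
  obtain ⟨f, f0, f1, f2⟩ := k hL (by linarith)
  obtain ⟨h, h0, h1, h2⟩ := k hR (by linarith)
  have s : f + h ≤ 1 := by
    have s1 : nL * nR ≤ 9 / 49 := by nlinarith [sq_nonneg (nL - nR)]
    have s2 : 0 < (nL + 3 / 7) * (nR + 3 / 7) := by positivity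
    have s3 : (nL + 3 / 7) * (nR + 3 / 7) * (f + h) = nL * (nR + 3 / 7) + nR * (nL + 3 / 7) := by
      linear_combination (nR + 3 / 7) * f2 + (nL + 3 / 7) * h2
    by_contra c
    nlinarith [mul_lt_mul_of_pos_left (not_le.1 c) s2]
  have k3 := ab2 (by linarith) f2
  have k4 := ab2 (by linarith) h2
  have f3 : (W₀ + W₁ + (L₀ + L₁)) * f = nL := by rw [← f2, eL]; ring
  have h3 : (W₀ + W₁ + (R₀ + R₁)) * h = nR := by rw [← h2, eR]; ring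
  have f4 : (W₀ + W₁ + (L₀ + L₁)) * |1 - 2 * f| = |nL + 3 / 7 - 2 * nL| := by
    rw [← k3, eL]; ring
  have h4 : (W₀ + W₁ + (R₀ + R₁)) * |1 - 2 * h| = |nR + 3 / 7 - 2 * nR| := by
    rw [← k4, eR]; ring
  refine ach_fh (f₀ := (f - h + 1 / 2) / 2) (f₁ := f) (f₄ := f) (f₅ := f) (f₇ := 0)
    (h₀ := (h - f + 1 / 2) / 2) (h₂ := h) (h₄ := h) (h₆ := h) (h₇ := 0) (d := (f + h - 1 / 2) / 2)
    (by refine ⟨?_, ?_, ?_, ?_, ?_, ?_, ?_, ?_, ?_, ?_, ?_⟩ <;> linarith)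
    (by refine ⟨?_, ?_, ?_, ?_, ?_, ?_, ?_⟩ <;> linarith)
    (by linarith) (by linarith) (by linarith) (by linarith) (Sf_tb ?_) (Sf_tb ?_) (Sf_tb ?_)
  · rw [show (f - h + 1 / 2) / 2 + (f + h - 1 / 2) / 2 = f by ring]
    norm_num
    rcases abs_cases (nL + 3 / 7 - 2 * nL) with c | c <;> linarith [c.1]
  · rw [show (h - f + 1 / 2) / 2 + (f + h - 1 / 2) / 2 = h by ring]
    norm_num
    rcases abs_cases (nR + 3 / 7 - 2 * nR) with c | c <;> linarith [c.1]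
  · rw [show (f - h + 1 / 2) / 2 + (h - f + 1 / 2) / 2 = 1 / 2 by ring]
    have c1 : |1 - 2 * f| ≤ 1 / 2 := abs_le.2 ⟨by linarith, by linarith⟩
    have c2 : |1 - 2 * h| ≤ 1 / 2 := abs_le.2 ⟨by linarith, by linarith⟩
    have b1 := mul_le_mul_of_nonneg_left c1 a1
    have b2 := mul_le_mul_of_nonneg_left c2 a2
    have b4 := ab1 (q := f + h) a4 (by linarith) s
    have b5 := mul_le_mul_of_nonneg_left c1 a5
    have b6 := mul_le_mul_of_nonneg_left c2 a6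
    norm_num
    linarith

theorem Bk.uh' {m : B3} {W L R V θ : ℝ} (h : Bk m W L R V) (h0 : 0 < θ)
    (h1 : W + R - 3 / 7 ≤ θ * (W + R + 1 / 7 - 2 / 7)) :
    ∃ t, Ach m 0 t 0 t 0 ∧ θ * t = max (W + R - 3 / 7) 0 := by
  rcases le_total (W + R - 3 / 7) 0 with k | k
  · exact ⟨0, h.zero, by rw [max_eq_right k, mul_zero]⟩
  · refine ⟨(W + R - 3 / 7) / θ, h.uh (by positivity) ?_ (by linarith), ?_⟩
    · rw [div_le_iff₀ h0]; linarith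
    · rw [max_eq_left k]; field_simp

theorem Bk.v1_small {m : B3} {W L R V A B : ℝ} (h : Bk m W L R V) (h1 : W + R - 3 / 7 ≤ 1 / 7)
    (a0 : 0 ≤ A) (a1 : W + L - 3 / 7 ≤ A) (b0 : 0 ≤ B) (b1 : W + R - 3 / 7 ≤ B) :
    Ach m (W + L - 3 / 7) (W + R - 3 / 7) A B 0 := by
  obtain ⟨a, b, c, d, e⟩ := h.facts
  obtain ⟨s, s1, s2⟩ := h.sw.uh' (θ := 2 / 3) (by norm_num) (by linarith)
  obtain ⟨t, t1, t2⟩ := h.uh' (θ := 1 / 3) (by norm_num) (by linarith)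
  have := le_max_left (W + L - 3 / 7) 0
  have := le_max_left (W + R - 3 / 7) 0
  have := max_le a1 a0
  have := max_le b1 b0
  exact s1.sw.mix h.pm (θ := 2 / 3) (by norm_num) (by norm_num) t1 (by linarith) (by linarith)
    (by linarith) (by linarith) (by linarith)

theorem Pm.bkt (hm : Pm (Y.tb W₀ L₀ R₀ V₀ W₁ L₁ R₁ V₁)) :
    Bk (Y.tb W₀ L₀ R₀ V₀ W₁ L₁ R₁ V₁) (W₀ + W₁) (L₀ + L₁) (R₀ + R₁) (V₀ + V₁) :=
  ⟨hm, rfl, rfl, rfl, rfl⟩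

theorem v1 (hm : Pm (tb W₀ L₀ R₀ V₀ W₁ L₁ R₁ V₁)) (hp : 4 / 7 ≤ W₁ + L₁ + R₁ + V₁)
    (h1 : W₁ + V₁ + L₀ + R₀ ≤ 6 / 7) : Ach (tb W₀ L₀ R₀ V₀ W₁ L₁ R₁ V₁)
      (W₀ + W₁ + (L₀ + L₁) - 3 / 7) (W₀ + W₁ + (R₀ + R₁) - 3 / 7) (W₁ + L₁ + R₀ + V₀)
      (W₁ + R₁ + L₀ + V₀) 0 := by
  obtain ⟨a0, a1, a2, a3, a4, a5, a6, a7, e⟩ := hm.tb
  rcases le_total (W₀ + W₁ + (R₀ + R₁) - 3 / 7) (1 / 7) with hR | hR
  · exact hm.bkt.v1_small hR (by linarith) (by linarith) (by linarith) (by linarith)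
  rcases le_total (W₀ + W₁ + (L₀ + L₁) - 3 / 7) (1 / 7) with hL | hL
  · exact (hm.bkt.sw.v1_small hL (by linarith) (by linarith) (by linarith) (by linarith)).sw
  rcases le_total (5 / 7) W₁ with k | k
  · exact v1_big hm h1 k
  rcases le_total (2 / 7) W₁ with k1 | k1
  · exact (v1_mid hm rfl rfl hL hR k1 k).mono hm le_rfl le_rfl (by linarith) (by linarith) le_rfl
  · exact (v1_low hm rfl rfl hL hR hp k1).mono hm le_rfl le_rfl (by linarith) (by linarith) le_rfl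

theorem Bk.all {m : B3} {W L R V A B k₁ k₂ k₃ : ℝ} (h : Bk m W L R V) (hS : L + R ≤ 6 / 7)
    (v : Ach m (W + L - 3 / 7) (W + R - 3 / 7) A B 0) (hAB : A ≤ B) (a0 : 0 ≤ A)
    (a1 : W + L - 3 / 7 ≤ A) (b1 : W + R - 3 / 7 ≤ B) (s : L + R ≤ A + B) (n1 : 0 ≤ k₁)
    (n2 : 0 ≤ k₂) (n3 : 0 ≤ k₃) (c1 : A ≤ k₁ + k₃) (c2 : B ≤ k₂ + k₃) :
    Ach m (W + L - 3 / 7) (W + R - 3 / 7) k₁ k₂ k₃ := by
  rcases le_total A k₃ with k | k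
  · exact (h.v23 hS n3 n2 (by linarith) (by linarith) (by linarith)).mono h.pm le_rfl le_rfl n1
      le_rfl le_rfl
  have e := mul_div_eq n3 k
  have e0 : 0 ≤ k₃ / A := by positivity
  have e1 : k₃ / A ≤ 1 := div_le_one_of_le₀ k a0
  generalize k₃ / A = θ at *
  exact (h.v23 (kz := A) (kh := B - A) hS a0 (by linarith) a1 (by linarith) (by linarith)).mix
    h.pm e0 e1 v (by linarith) (by linarith) (by linarith) (by linarith) (by linarith)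

/-- The finite step lemma. -/
theorem ach_all {m : B3} {k₁ k₂ k₃ : ℝ} (hm : Pm m) (hp : E m (fun p _ _ => sg p) ≤ -1 / 7)
    (h1 : -5 / 7 ≤ E m fun _ a b => sg a * sg b)
    (h2 : -5 / 7 ≤ E m fun p a b => sg (xor a p) * sg b) (n1 : 0 ≤ k₁) (n2 : 0 ≤ k₂)
    (n3 : 0 ≤ k₃) (c1 : E m (fun p a _ => ib (xor a p)) ≤ k₁ + k₃)
    (c2 : E m (fun p _ b => ib (xor b p)) ≤ k₂ + k₃) :
    Ach m (1 / 14 + E m (fun _ a _ => sg a) / 2) (1 / 14 + E m (fun _ _ b => sg b) / 2)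
      k₁ k₂ k₃ := by
  obtain ⟨W₀, L₀, R₀, V₀, W₁, L₁, R₁, V₁, rfl⟩ : ∃ W₀ L₀ R₀ V₀ W₁ L₁ R₁ V₁,
      m = tb W₀ L₀ R₀ V₀ W₁ L₁ R₁ V₁ :=
    ⟨m false false false, m false false true, m false true false, m false true true,
      m true false false, m true false true, m true true false, m true true true, by
      funext p a b; cases p <;> cases a <;> cases b <;> rfl⟩
  obtain ⟨a0, a1, a2, a3, a4, a5, a6, a7, e⟩ := hm.tb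
  simp [E, tb, sg, ib] at hp h1 h2 c1 c2
  have v := v1 hm (by linarith) (by linarith)
  refine Ach.mono hm (a₁ := W₀ + W₁ + (L₀ + L₁) - 3 / 7) (a₂ := W₀ + W₁ + (R₀ + R₁) - 3 / 7) ?_
    (by simp [E, tb, sg]; linarith) (by simp [E, tb, sg]; linarith) le_rfl le_rfl le_rfl
  rcases le_total (W₁ + L₁ + R₀ + V₀) (W₁ + R₁ + L₀ + V₀) with k | k
  · exact hm.bkt.all (by linarith) v k (by linarith) (by linarith) (by linarith) (by linarith)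
      n1 n2 n3 (by linarith) (by linarith)
  · exact (hm.bkt.sw.all (by linarith) (Ach.sw (m := sw _) v) k (by linarith) (by linarith)
      (by linarith) (by linarith) n2 n1 n3 (by linarith) (by linarith)).sw

end

end Pool.Agent.P.MP_92d394_lc.Y
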