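import Pool.Agent.P.MP_92d394_lc.Y.Ach

/-! Cycle cut points: one step when the cell in the other row and the same column is not used. -/

namespace Pool.Agent.P.MP_92d394_lc.Y

noncomputable section

/-- The masses of the four blocks. -/
structure Bk (m : B3) (W L R V : ℝ) : Prop where
  pm : Pm m
  eW : W = bk m false false
  eL : L = bk m false true
  eR : R = bk m true false
  eV : V = bk m true true

variable {m : B3} {W L R V t q kz kh : ℝ}

theorem Bk.sw (h : Bk m W L R V) : Bk (sw m) W R L V := ⟨h.pm.sw, h.eW, h.eR, h.eL, h.eV⟩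

theorem Bk.facts (h : Bk m W L R V) : 0 ≤ W ∧ 0 ≤ L ∧ 0 ≤ R ∧ 0 ≤ V ∧ W + L + R + V = 1 := by
  obtain ⟨pm, rfl, rfl, rfl, rfl⟩ := h
  exact ⟨pm.bk_nn _ _, pm.bk_nn _ _, pm.bk_nn _ _, pm.bk_nn _ _, pm.bk_one⟩

theorem Bk.zh (h : Bk m W L R V) {w l r x u c₁ c₂ c₄ c₅ : ℝ}
    (hw : 0 ≤ w) (hl : 0 ≤ l) (hr : 0 ≤ r) (hx : 0 ≤ x) (hu : 0 ≤ u) (h1 : w + x ≤ W)
    (h2 : l ≤ L) (h3 : r + u ≤ R) (s1 : SM W L R V w l r) (s2 : SM W L R V x 0 u)
    (s3 : SM W L R V (w + x) l (r + u)) (e1 : c₁ ≤ w + l - r) (e2 : c₂ ≤ w + r - l + x + u)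
    (e4 : x + u ≤ c₄) (e5 : w + l + r ≤ c₅) : Ach m c₁ c₂ 0 c₄ c₅ :=
  (ach_zh h.pm h.eW h.eL h.eR h.eV hw hl hr hx hu h1 h2 h3 s1 s2 s3).mono h.pm e1 e2 le_rfl e4 e5

theorem Bk.z (h : Bk m W L R V) {w l r c₁ c₂ c₅ : ℝ} (hw : 0 ≤ w) (hl : 0 ≤ l) (hr : 0 ≤ r)
    (h1 : w ≤ W) (h2 : l ≤ L) (h3 : r ≤ R) (s1 : SM W L R V w l r) (e1 : c₁ ≤ w + l - r)
    (e2 : c₂ ≤ w + r - l) (e5 : w + l + r ≤ c₅) : Ach m c₁ c₂ 0 0 c₅ :=
  h.zh hw hl hr le_rfl le_rfl (by linarith) h2 (by linarith) s1 SM_zero (by simpa using s1) e1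
    (by linarith) (by linarith) e5

theorem Bk.zero (h : Bk m W L R V) : Ach m 0 0 0 0 0 := by
  obtain ⟨a, b, c, -, -⟩ := h.facts
  exact h.z le_rfl le_rfl le_rfl a b c SM_zero (by simp) (by simp) (by simp)

theorem Bk.sWR (h : Bk m W L R V) (h0 : 0 ≤ t) (h1 : t ≤ W + R - 1 / 7) (h2 : 2 / 7 ≤ W + R) :
    ∃ x u, 0 ≤ x ∧ 0 ≤ u ∧ x ≤ W ∧ u ≤ R ∧ x + u = t ∧ SM W L R V x 0 u := by
  obtain ⟨a, b, c, d, e⟩ := h.facts
  have k := mul_div_eq h0 (by linarith : t ≤ W + R)
  have k0 : 0 ≤ t / (W + R) := div_nonneg h0 (by linarith)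
  have k1 : t / (W + R) ≤ 1 := div_le_one_of_le₀ (by linarith) (by linarith)
  generalize t / (W + R) = q at *
  refine ⟨W * q, R * q, by positivity, by positivity, mul_le_of_le_one_right a k1,
    mul_le_of_le_one_right c k1, by linarith, ?_⟩
  simpa [ib] using SM_unif e a b c true false true k0 (by simpa [ib] using h2)
    (by simp only [ib]; norm_num; linarith)

theorem Bk.uh (h : Bk m W L R V) (h0 : 0 ≤ t) (h1 : t ≤ W + R - 1 / 7) (h2 : 2 / 7 ≤ W + R) :
    Ach m 0 t 0 t 0 := by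
  obtain ⟨x, u, a, b, c, d, e, s⟩ := h.sWR h0 h1 h2
  exact h.zh le_rfl le_rfl le_rfl a b (by linarith) h.facts.2.1 (by linarith) SM_zero s
    (by simpa using s) (by simp) (by linarith) (by linarith) (by simp)

theorem Bk.uz (h : Bk m W L R V) (h0 : 0 ≤ t) (h1 : t ≤ W + R - 1 / 7) (h2 : 2 / 7 ≤ W + R) :
    Ach m (-t) t 0 0 t := by
  obtain ⟨x, u, a, b, c, d, e, s⟩ := h.sWR h0 h1 h2
  exact h.z a le_rfl b c h.facts.2.1 d s (by linarith) (by linarith) (by linarith)

theorem Bk.uzL (h : Bk m W L R V) (h0 : 0 ≤ q) (h1 : q * (W + L) ≤ W + L - 1 / 7)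
    (h2 : 2 / 7 ≤ W + L) : Ach m (q * (W + L)) (q * (W - L)) 0 0 (q * (W + L)) := by
  obtain ⟨a, b, c, d, e⟩ := h.facts
  have k1 : q ≤ 1 := by nlinarith
  refine h.z (w := W * q) (l := L * q) (r := 0) (by positivity) (by positivity) le_rfl
    (mul_le_of_le_one_right a k1) (mul_le_of_le_one_right b k1) c ?_ (by linarith) (by linarith)
    (by linarith)
  simpa [ib] using SM_unif e a b c true true false h0 (by simpa [ib] using h2)
    (by simp only [ib]; norm_num; linarith)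

theorem Bk.caseW (h : Bk m W L R V) (h1 : 2 / 7 ≤ W) (h2 : 0 ≤ t) (h3 : t ≤ W - 1 / 7)
    (h4 : 0 ≤ kh) (h5 : W + R - 3 / 7 ≤ t + kh) : Ach m t (W + R - 3 / 7) 0 kh t := by
  obtain ⟨a, b, c, d, e⟩ := h.facts
  have s := SM_W e b c h1 h2 h3
  rcases le_total (W + R - 3 / 7) t with k | k
  · exact (h.z h2 le_rfl le_rfl (by linarith) b c s (by linarith) (by linarith)
      (by linarith)).mono h.pm le_rfl le_rfl le_rfl h4 le_rfl
  rcases le_total R (2 / 7) with k1 | k1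
  · exact h.zh (x := W + R - 3 / 7 - t) (u := 0) h2 le_rfl le_rfl (by linarith) le_rfl
      (by linarith) b (by linarith) s (SM_W e b c h1 (by linarith) (by linarith))
      (by simpa using SM_W e b c h1 (x := W + R - 3 / 7) (by linarith) (by linarith))
      (by linarith) (by linarith) (by linarith) (by linarith)
  rcases le_total (W + R - 3 / 7 - t) (R - 1 / 7) with k2 | k2
  · refine h.zh (x := 0) (u := W + R - 3 / 7 - t) h2 le_rfl le_rfl le_rfl (by linarith)
      (by linarith) b (by linarith) s (SM_R e a b k1 (by linarith) k2) (SM_half e ?_)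
      (by linarith) (by linarith) (by linarith) (by linarith)
    simp only [min_def]
    split_ifs <;> linarith
  · refine h.zh (x := W - 2 / 7 - t) (u := R - 1 / 7) h2 le_rfl le_rfl (by linarith) (by linarith)
      (by linarith) b (by linarith) s (SM_half e ?_) (SM_half e ?_)
      (by linarith) (by linarith) (by linarith) (by linarith) <;>
    · simp only [min_def]
      split_ifs <;> linarith

theorem Bk.p3a (h : Bk m W L R V) (hS : L + R ≤ 6 / 7) (hLR : L ≤ R) (h0 : 0 ≤ kz)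
    (h1 : W + R - 3 / 7 ≤ kz) (h2 : L + R ≤ 2 * kz) :
    Ach m (W + L - 3 / 7) (W + R - 3 / 7) 0 0 kz := by
  obtain ⟨a, b, c, d, e⟩ := h.facts
  rcases le_total (W + R - 3 / 7) 0 with k | k
  · exact h.zero.mono h.pm (by linarith) k le_rfl le_rfl h0
  rcases le_total (W + L - 3 / 7 + (W + R - 3 / 7)) 0 with k1 | k1
  · exact (h.uz k (by linarith) (by linarith)).mono h.pm (by linarith) le_rfl le_rfl le_rfl h1
  by_cases k2 : 2 / 7 ≤ W ∧ R ≤ 2 / 7
  · exact (h.caseW k2.1 k (by linarith [k2.2]) le_rfl (by linarith)).mono h.pm (by linarith)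
      le_rfl le_rfl le_rfl h1
  rw [not_and_or, not_le, not_le] at k2
  rcases le_total L (W - 3 / 7 + (L + R) / 2) with k3 | k3
  · refine h.z (w := W - 3 / 7 + (L + R) / 2) (l := 0) (r := (R - L) / 2) (by linarith) le_rfl
      (by linarith) (by linarith) b (by linarith) (SM_half e ?_) (by linarith) (by linarith)
      (by linarith)
    simp only [min_def]
    rcases k2 with k2 | k2 <;> split_ifs <;> linarith
  · refine h.z (w := W - 3 / 7 + (L + R) / 2) (l := (L - (W - 3 / 7 + (L + R) / 2)) / 2)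
      (r := (R - L) / 2 + (L - (W - 3 / 7 + (L + R) / 2)) / 2) (by linarith) (by linarith)
      (by linarith) (by linarith) (by linarith) (by linarith) (SM_half e ?_) (by linarith)
      (by linarith) (by linarith)
    simp only [min_def]
    rcases k2 with k2 | k2 <;> split_ifs <;> linarith

theorem Bk.p3 (h : Bk m W L R V) (hS : L + R ≤ 6 / 7) (h0 : 0 ≤ kz) (h1 : W + L - 3 / 7 ≤ kz)
    (h2 : W + R - 3 / 7 ≤ kz) (h3 : L + R ≤ 2 * kz) :
    Ach m (W + L - 3 / 7) (W + R - 3 / 7) 0 0 kz := by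
  rcases le_total L R with k | k
  · exact h.p3a hS k h0 h2 h3
  · exact (h.sw.p3a (by linarith) k h0 h1 (by linarith)).sw

theorem Bk.p2 (h : Bk m W L R V) (hS : L + R ≤ 6 / 7) (h0 : 0 ≤ L - W + 3 / 7) (h1 : W ≤ 3 / 7)
    (h2 : 0 ≤ 2 * W + R - L - 6 / 7) :
    Ach m (W + L - 3 / 7) (W + R - 3 / 7) 0 (2 * W + R - L - 6 / 7) (L - W + 3 / 7) := by
  obtain ⟨a, b, c, d, e⟩ := h.facts
  rcases le_total (L + 4 / 7) (2 * W) with k | k
  · exact (h.caseW (by linarith) h0 (by linarith) h2 (by linarith)).mono h.pm (by linarith)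
      le_rfl le_rfl le_rfl le_rfl
  · refine h.zh (w := L) (l := 0) (r := 3 / 7 - W) (x := 0) (u := 2 * W + R - L - 6 / 7) b le_rfl
      (by linarith) le_rfl h2 (by linarith) b (by linarith) (SM_half e ?_)
      (SM_R e a b (by linarith) h2 (by linarith)) (SM_half e ?_) (by linarith) (by linarith)
      (by linarith) (by linarith) <;>
    · simp only [min_def]
      split_ifs <;> linarith

theorem Bk.p1a (h : Bk m W L R V) (hn : W + L - 3 / 7 ≤ 0) (h0 : 0 ≤ kh)
    (h1 : W + R - 3 / 7 ≤ kh) : Ach m (W + L - 3 / 7) (W + R - 3 / 7) 0 kh 0 := by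
  rcases le_total (W + R - 3 / 7) 0 with k | k
  · exact h.zero.mono h.pm hn k le_rfl h0 le_rfl
  · exact (h.uh k (by linarith) (by linarith)).mono h.pm hn le_rfl le_rfl h1 le_rfl

theorem Bk.p1b (h : Bk m W L R V) (hS : L + R ≤ 6 / 7) (hn : 0 ≤ W + L - 3 / 7) (h0 : 0 ≤ kh)
    (h1 : R - L ≤ kh) (h2 : L + R - 2 * (W + L - 3 / 7) ≤ kh) :
    Ach m (W + L - 3 / 7) (W + R - 3 / 7) 0 kh (W + L - 3 / 7) := by
  obtain ⟨a, b, c, d, e⟩ := h.facts
  by_cases k : 2 / 7 ≤ W ∧ L ≤ 2 / 7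
  · exact h.caseW k.1 hn (by linarith [k.2]) h0 (by linarith)
  rw [not_and_or, not_le, not_le] at k
  rcases le_total (W + L - 3 / 7 + (W + R - 3 / 7)) 0 with k1 | k1
  · exact (h.sw.uz hn (by linarith) (by linarith)).sw.mono h.pm le_rfl (by linarith) le_rfl h0
      le_rfl
  rcases le_total (W + L - 3 / 7) (1 / 7) with k2 | k2
  · have k3 : W ≤ 2 / 7 := by rcases k with k | k <;> linarith
    have e1 := mul_div_eq hn (by linarith : W + L - 3 / 7 ≤ W + L)
    have e2 : 0 ≤ (W + L - 3 / 7) / (W + L) := div_nonneg hn (by linarith)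
    generalize (W + L - 3 / 7) / (W + L) = q at e1 e2
    have e3 : 7 / 4 * (W + L - 3 / 7) ≤ q := by nlinarith
    have e4 : 7 / 4 * (W + L - 3 / 7) * W ≤ q * W := mul_le_mul_of_nonneg_right e3 a
    have z := h.uzL (q := 3 * q) (by positivity) (by linarith) (by linarith)
    rcases le_total (W + R - 3 / 7) (q * (W - L)) with k4 | k4
    · exact z.mix h.pm (θ := 1 / 3) (by norm_num) (by norm_num) h.zero (by linarith) (by linarith)
        (by linarith) (by linarith) (by linarith)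
    · have e5 : 0 ≤ q * W := by positivity
      have e6 := mul_nonneg (sub_nonneg.2 k2) (sub_nonneg.2 k3)
      have e7 := mul_nonneg hn a
      exact z.mix h.pm (θ := 1 / 3) (by norm_num) (by norm_num)
        (h.uh (t := 3 / 2 * (W + R - 3 / 7 - q * (W - L))) (by linarith) (by nlinarith)
          (by linarith)) (by linarith) (by linarith) (by linarith) (by linarith) (by linarith)
  have k3 : 2 / 7 ≤ L := by rcases k with k | k <;> linarith
  rcases le_total (2 / 7) R with k4 | k4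
  · refine h.zh (w := W + L / 2 - 2 / 7) (l := L / 2 - 1 / 7) (r := 0) (x := 0) (u := R - 2 / 7)
      (by linarith) (by linarith) le_rfl le_rfl (by linarith) (by linarith) (by linarith)
      (by linarith) (SM_half e ?_) (SM_R e a b k4 (by linarith) (by linarith)) (SM_half e ?_)
      (by linarith) (by linarith) (by linarith) (by linarith) <;>
    · simp only [min_def]
      split_ifs <;> linarith
  · refine (h.z (w := W - 3 / 7 + (L + R) / 2) (l := (L - R) / 2) (r := 0) (by linarith)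
      (by linarith) le_rfl (by linarith) (by linarith) c (SM_half e ?_) (by linarith) (by linarith)
      (by linarith)).mono h.pm le_rfl le_rfl le_rfl h0 le_rfl
    simp only [min_def]
    split_ifs <;> linarith

theorem Ach.seg (hm : Pm m) {a b x₁ y₁ x₂ y₂ x y c : ℝ} (h₁ : Ach m a b 0 y₁ x₁)
    (h₂ : Ach m a b 0 y₂ x₂) (e1 : x₁ ≤ x) (e2 : x ≤ x₂) (e3 : y₁ + c * x₁ ≤ y + c * x)
    (e4 : y₂ + c * x₂ ≤ y + c * x) : Ach m a b 0 y x := by
  have k := mul_div_eq (sub_nonneg.2 e2) (by linarith : x₂ - x ≤ x₂ - x₁)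
  have k0 : 0 ≤ (x₂ - x) / (x₂ - x₁) := div_nonneg (by linarith) (by linarith)
  have k1 : (x₂ - x) / (x₂ - x₁) ≤ 1 := div_le_one_of_le₀ (by linarith) (by linarith)
  generalize (x₂ - x) / (x₂ - x₁) = θ at *
  refine h₁.mix hm k0 k1 h₂ (by linarith) (by linarith) (by linarith) ?_ (by linarith)
  have k2 := mul_le_mul_of_nonneg_left e3 k0
  have k3 := mul_le_mul_of_nonneg_left e4 (sub_nonneg.2 k1)
  have k4 : c * ((x₂ - x₁) * θ) = c * (x₂ - x) := by rw [k]
  linarith

theorem Bk.v23 (h : Bk m W L R V) (hS : L + R ≤ 6 / 7) (h0 : 0 ≤ kz) (h1 : 0 ≤ kh)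
    (h2 : W + L - 3 / 7 ≤ kz) (h3 : W + R - 3 / 7 ≤ kz + kh) (h4 : L + R ≤ 2 * kz + kh) :
    Ach m (W + L - 3 / 7) (W + R - 3 / 7) 0 kh kz := by
  obtain ⟨a, b, c, d, e⟩ := h.facts
  obtain ⟨n, n0, n1, n2, n3⟩ : ∃ n, 0 ≤ n ∧ W + L - 3 / 7 ≤ n ∧ n ≤ kz ∧ ∀ y, 0 ≤ y →
      W + R - 3 / 7 ≤ n + y → L + R ≤ 2 * n + y →
        Ach m (W + L - 3 / 7) (W + R - 3 / 7) 0 y n := by
    rcases le_total (W + L - 3 / 7) 0 with k | k
    · exact ⟨0, le_rfl, k, h0, fun y y0 y1 _ => h.p1a k y0 (by linarith)⟩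
    · exact ⟨_, k, le_rfl, h2, fun y y0 y1 y2 => h.p1b hS k y0 (by linarith) (by linarith)⟩
  by_cases k : W + R - 3 / 7 ≤ kz ∧ L + R ≤ 2 * kz
  · exact (h.p3 hS h0 h2 k.1 k.2).mono h.pm le_rfl le_rfl le_rfl h1 le_rfl
  rw [not_and_or, not_le, not_le] at k
  rcases le_total (2 * (W + R - 3 / 7)) (L + R) with k1 | k1
  · have k2 : 2 * kz < L + R := by rcases k with k | k <;> linarith
    exact (n3 (L + R - 2 * n) (by linarith) (by linarith) (by linarith)).seg h.pm (c := 2)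
      (h.p3 (kz := (L + R) / 2) hS (by linarith) (by linarith) (by linarith) (by linarith)) n2
      (by linarith) (by linarith) (by linarith)
  have k2 : kz < W + R - 3 / 7 := by rcases k with k | k <;> linarith
  have p3 := h.p3 (kz := W + R - 3 / 7) hS (by linarith) (by linarith) le_rfl (by linarith)
  rcases le_total (L - W + 3 / 7) n with k3 | k3
  · exact (n3 (W + R - 3 / 7 - n) (by linarith) (by linarith) (by linarith)).seg h.pm (c := 1)
      p3 n2 k2.le (by linarith) (by linarith)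
  have p2 := h.p2 hS (by linarith) (by linarith) (by linarith)
  rcases le_total kz (L - W + 3 / 7) with k4 | k4
  · exact (n3 (L + R - 2 * n) (by linarith) (by linarith) (by linarith)).seg h.pm (c := 2)
      p2 n2 k4 (by linarith) (by linarith)
  · exact p2.seg h.pm (c := 1) p3 k4 k2.le (by linarith) (by linarith)

end

end Pool.Agent.P.MP_92d394_lc.Y
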